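import Mathlib

set_option autoImplicit false

/-!
# Statements of three independent lemmas used for minimal `K_σ` realizations
-/

open Set TopologicalSpace

namespace Pool.Agent.Q215.MK

/-- The sequence has infinitely many ones. -/
def Inf (z : ℕ → Bool) : Prop := ∀ n, ∃ m, n ≤ m ∧ z m = true

/-- Decomposition of an aperiodic countable Borel equivalence relation into finite blocks; blocks
of level `l` have one element for each index `i` with `lv i = l`; `i0` is the only index of level
`0`; every class meets all levels. `σ x` is the index of `x` in its block, `ρ x` codes the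
block and `β i` recovers the element with index `i` from the code. -/
def S_blocks : Prop := ∀ (X : Type) [MeasurableSpace X] [StandardBorelSpace X] (s : ℕ → X → X)
    (_ : ∀ n, Measurable (s n)) (_ : ∀ n x, s n (s n x) = x) (E : X → X → Prop)
    (_ : Equivalence E) (_ : ∀ x y, E x y ↔ ∃ n, s n x = y) (_ : ∀ x, {y | E x y}.Infinite)
    (lv : ℕ → ℕ) (i0 : ℕ) (_ : ∀ l, {i | lv i = l}.Finite) (_ : ∀ l, ∃ i, lv i = l)
    (_ : ∀ i, lv i = 0 ↔ i = i0),
    ∃ (σ : X → ℕ) (ρ : X → X) (β : ℕ → X → X), Measurable σ ∧ Measurable ρ ∧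
      (∀ i, Measurable (β i)) ∧ (∀ x, β (σ x) (ρ x) = x) ∧
      (∀ x i, lv i = lv (σ x) → σ (β i (ρ x)) = i ∧ ρ (β i (ρ x)) = ρ x ∧ E x (β i (ρ x))) ∧
      (∀ x l, ∃ y, E x y ∧ lv (σ y) = l)

/-- A standard Borel space has a zero-dimensional Polish topology for which countably many given
Borel self maps and a given Borel map to `ℕ` are continuous. -/
def S_zero : Prop := ∀ (X : Type) [MeasurableSpace X] [StandardBorelSpace X] (g : ℕ → X → X)
    (_ : ∀ n, Measurable (g n)) (h : X → ℕ) (_ : Measurable h),
    ∃ t : TopologicalSpace X, @PolishSpace X t ∧ @BorelSpace X t _ ∧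
      (∀ n, @Continuous X X t t (g n)) ∧ @Continuous X ℕ t _ h ∧
      ∃ b : Set (Set X), b.Countable ∧ @IsTopologicalBasis X t b ∧ ∀ u ∈ b, @IsClopen X t u

/-- A zero-dimensional Polish space embeds in the Cantor space, with image a relatively closed
subset of the set of sequences with infinitely many ones. -/
def S_iota : Prop := ∀ (X : Type) [TopologicalSpace X] [PolishSpace X] (b : Set (Set X)),
    b.Countable → IsTopologicalBasis b → (∀ u ∈ b, IsClopen u) →
    ∃ ι : X → (ℕ → Bool), Topology.IsEmbedding ι ∧ (∀ x, Inf (ι x)) ∧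
      ∀ w ∈ closure (range ι), Inf w → w ∈ range ι

end Pool.Agent.Q215.MK
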