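import Mathlib
import Pool.Agent.Q215.MK.Stm

set_option autoImplicit false

/-!
# The space for minimal `K_σ` realizations
-/

open Set TopologicalSpace Topology

namespace Pool.Agent.Q215.MK

abbrev C : Type := ℕ → Bool

abbrev PP : Type := ℕ × C × (ℕ → C)

def zro : C := fun _ => false

/-- `l` is the position of the last one of `z` -/
def Lst (z : C) (l : ℕ) : Prop := z l = true ∧ ∀ m, l < m → z m = false

/-- `m` is the position of the first one of `z` after `l` -/
def Nxt (z : C) (l m : ℕ) : Prop := l < m ∧ z m = true ∧ ∀ i, l < i → i < m → z i = false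

theorem Lst.unique {z : C} {l l' : ℕ} (h : Lst z l) (h' : Lst z l') : l = l' := by
  rcases lt_trichotomy l l' with h1 | h1 | h1
  · have := h.2 _ h1
    rw [h'.1] at this
    exact absurd this (by decide)
  · exact h1
  · have := h'.2 _ h1
    rw [h.1] at this
    exact absurd this (by decide)

theorem Lst.not_inf {z : C} {l : ℕ} (h : Lst z l) : ¬ Inf z := by
  intro hz
  obtain ⟨m, hm, hm'⟩ := hz (l + 1)
  have := h.2 m (by omega)
  rw [hm'] at this
  exact absurd this (by decide)

theorem not_inf_zro : ¬ Inf zro := by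
  intro h
  obtain ⟨m, -, hm⟩ := h 0
  exact absurd hm (by simp [zro])

theorem not_lst_zro (l : ℕ) : ¬ Lst zro l := by
  intro h
  have := h.1
  simp [zro] at this

theorem cases_z (z : C) : Inf z ∨ (∃ l, Lst z l) ∨ z = zro := by
  classical
  by_cases h : Inf z
  · exact Or.inl h
  · right
    unfold Inf at h
    push Not at h
    obtain ⟨n, hn⟩ := h
    by_cases hz : z = zro
    · exact Or.inr hz
    · left
      have h1 : ∃ l, z l = true := by
        by_contra hcon
        push Not at hcon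
        exact hz (funext fun l => Bool.eq_false_of_not_eq_true (hcon l))
      obtain ⟨l, hl⟩ := h1
      have hln : l ≤ n := by
        by_contra hcon
        exact hn l (by omega) hl
      refine ⟨Nat.findGreatest (fun l => z l = true) n,
        Nat.findGreatest_spec (P := fun l => z l = true) hln hl, ?_⟩
      intro m hm
      by_contra hcon
      rw [Bool.not_eq_false] at hcon
      by_cases hmn : m ≤ n
      · exact Nat.findGreatest_is_greatest hm hmn hcon
      · exact hn m (by omega) hcon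

theorem Nxt.unique {z : C} {l m m' : ℕ} (h : Nxt z l m) (h' : Nxt z l m') : m = m' := by
  rcases lt_trichotomy m m' with h1 | h1 | h1
  · have := h'.2.2 m h.1 h1
    rw [h.2.1] at this
    exact absurd this (by decide)
  · exact h1
  · have := h.2.2 m' h'.1 h1
    rw [h'.2.1] at this
    exact absurd this (by decide)

theorem exists_nxt {z : C} {l j : ℕ} (hj : l < j) (hz : z j = true) :
    ∃ m, m ≤ j ∧ Nxt z l m := by
  classical
  have h : ∃ m, l < m ∧ z m = true := ⟨j, hj, hz⟩
  refine ⟨Nat.find h, Nat.find_min' h ⟨hj, hz⟩, (Nat.find_spec h).1, (Nat.find_spec h).2, ?_⟩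
  intro i hi hi'
  by_contra hcon
  rw [Bool.not_eq_false] at hcon
  exact Nat.find_min h hi' ⟨hi, hcon⟩

theorem Lst.not_nxt {z : C} {l m : ℕ} (h : Lst z l) : ¬ Nxt z l m := by
  intro h'
  have := h.2 m h'.1
  rw [h'.2.1] at this
  exact absurd this (by decide)

theorem nxt_or_lst {z : C} {l : ℕ} (h : z l = true) : (∃ m, Nxt z l m) ∨ Lst z l := by
  by_cases h1 : ∃ j, l < j ∧ z j = true
  · obtain ⟨j, hj, hz⟩ := h1
    obtain ⟨m, -, hm⟩ := exists_nxt hj hz
    exact Or.inl ⟨m, hm⟩
  · right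
    push Not at h1
    exact ⟨h, fun m hm => Bool.eq_false_of_not_eq_true (h1 m hm)⟩

theorem Nxt.congr {z z' : C} {l m : ℕ} (h : Nxt z l m) (hz : ∀ i, i ≤ m → l < i → z i = z' i) :
    Nxt z' l m := by
  refine ⟨h.1, ?_, ?_⟩
  · rw [← hz m le_rfl h.1]
    exact h.2.1
  · intro i hi hi'
    rw [← hz i hi'.le hi]
    exact h.2.2 i hi hi'

/-- The compact sets and dense sequences. -/
structure KD where
  K : ℕ → Set C
  k : ℕ → ℕ → C
  cl : ∀ l, IsClosed (K l)
  mem : ∀ l m, k l m ∈ K l
  zr : ∀ l, zro ∈ K l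
  dn : ∀ l (O : Set C), IsOpen O → ∀ w ∈ O, w ∈ K l → ∀ N, ∃ m, N ≤ m ∧ k l m ∈ O

/-- The space. -/
def SY (D : KD) : Set PP :=
  {p | ∀ l, ((p.2.1 l = false ∨ l < p.1) → p.2.2 l = zro) ∧
     (p.2.1 l = true → p.1 ≤ l → p.2.2 l ∈ D.K l ∧ ∀ m, Nxt p.2.1 l m → p.2.2 l = D.k l m)}

theorem isClopen_coord (l : ℕ) (b : Bool) : IsClopen {p : PP | p.2.1 l = b} := by
  have h : Continuous (fun p : PP => p.2.1 l) :=
    (continuous_apply l).comp (continuous_fst.comp continuous_snd)
  exact (isClopen_discrete ({b} : Set Bool)).preimage h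

theorem isClopen_fst (S : Set ℕ) : IsClopen {p : PP | p.1 ∈ S} :=
  (isClopen_discrete S).preimage continuous_fst

theorem isClopen_nxt (l m : ℕ) : IsClopen {p : PP | Nxt p.2.1 l m} := by
  have : {p : PP | Nxt p.2.1 l m} = {p : PP | l < m} ∩ ({p : PP | p.2.1 m = true} ∩
      ⋂ i ∈ Finset.range m, {p : PP | l < i → p.2.1 i = false}) := by
    ext p
    simp only [Nxt, mem_ofPred_eq, mem_inter_iff, mem_iInter, Finset.mem_range]
    constructor
    · rintro ⟨h1, h2, h3⟩
      exact ⟨h1, h2, fun i hi hi' => h3 i hi' hi⟩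
    · rintro ⟨h1, h2, h3⟩
      exact ⟨h1, h2, fun i hi hi' => h3 i hi' hi⟩
  rw [this]
  refine IsClopen.inter ?_ (IsClopen.inter (isClopen_coord _ _) ?_)
  · by_cases h : l < m
    · simp only [h]
      exact isClopen_univ
    · simp only [h]
      exact isClopen_empty
  · refine isClopen_biInter_finset ?_
    intro i _
    by_cases h : l < i
    · simp only [h, forall_true_left]
      exact isClopen_coord _ _
    · simp only [h, false_imp_iff]
      exact isClopen_univ

theorem isClosed_imp {S T : Set PP} (hS : IsClopen S) (hT : IsClosed T) :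
    IsClosed {p | p ∈ S → p ∈ T} := by
  have : {p | p ∈ S → p ∈ T} = Sᶜ ∪ T := by
    ext p
    simp only [mem_ofPred_eq, mem_union, mem_compl_iff]
    tauto
  rw [this]
  exact hS.compl.1.union hT

theorem cont_kap (l : ℕ) : Continuous (fun p : PP => p.2.2 l) :=
  (continuous_apply l).comp (continuous_snd.comp continuous_snd)

theorem isClosed_SY (D : KD) : IsClosed (SY D) := by
  have : SY D = ⋂ l, ({p : PP | p ∈ ({p : PP | p.2.1 l = false} ∪ {p : PP | p.1 ∈ Set.Ioi l}) →
      p ∈ {p : PP | p.2.2 l = zro}} ∩ {p : PP | p ∈ ({p : PP | p.2.1 l = true} ∩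
      {p : PP | p.1 ∈ Set.Iic l}) → p ∈ ({p : PP | p.2.2 l ∈ D.K l} ∩ ⋂ m,
        {p : PP | p ∈ {p : PP | Nxt p.2.1 l m} → p ∈ {p : PP | p.2.2 l = D.k l m}})}) := by
    ext p
    simp only [SY, mem_ofPred_eq, mem_iInter, mem_inter_iff, mem_union, mem_Ioi, mem_Iic,
      and_imp]
  rw [this]
  refine isClosed_iInter fun l => IsClosed.inter ?_ ?_
  · exact isClosed_imp ((isClopen_coord _ _).union (isClopen_fst _))
      (isClosed_eq (cont_kap l) continuous_const)
  · refine isClosed_imp ((isClopen_coord _ _).inter (isClopen_fst _)) (IsClosed.inter ?_ ?_)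
    · exact (D.cl l).preimage (cont_kap l)
    · refine isClosed_iInter fun m => isClosed_imp (isClopen_nxt l m) ?_
      exact isClosed_eq (cont_kap l) continuous_const

/-- The realization space as a type. -/
abbrev YY (D : KD) : Type := SY D

theorem isCompact_le (D : KD) (n : ℕ) : IsCompact {y : YY D | y.1.1 ≤ n} := by
  have h1 : IsCompact ((Set.Iic n) ×ˢ (univ ×ˢ univ) : Set PP) :=
    (Set.finite_Iic n).isCompact.prod (isCompact_univ.prod isCompact_univ)
  have h2 : {y : YY D | y.1.1 ≤ n} = (Subtype.val : YY D → PP) ⁻¹'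
      ((Set.Iic n) ×ˢ (univ ×ˢ univ) : Set PP) := by
    ext y
    simp
  rw [h2]
  exact (isClosed_SY D).isClosedEmbedding_subtypeVal.isCompact_preimage h1

theorem isCompact_of (D : KD) (n : ℕ) (G : Set (PP × PP)) (hG : IsClosed G) :
    IsCompact {q : YY D × YY D | (q.1.1, q.2.1) ∈ G ∧ q.1.1.1 ≤ n ∧ q.2.1.1 ≤ n} := by
  have h1 := (isCompact_le D n).prod (isCompact_le D n)
  have h2 : IsClosed {q : YY D × YY D | (q.1.1, q.2.1) ∈ G} :=
    hG.preimage (by fun_prop)
  have h3 := h1.inter_left h2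
  have h4 : {q : YY D × YY D | (q.1.1, q.2.1) ∈ G ∧ q.1.1.1 ≤ n ∧ q.2.1.1 ≤ n} =
      {q : YY D × YY D | (q.1.1, q.2.1) ∈ G} ∩
        ({y : YY D | y.1.1 ≤ n} ×ˢ {y : YY D | y.1.1 ≤ n}) := by
    ext q
    simp only [mem_ofPred_eq, mem_inter_iff, mem_prod]
  rw [h4]
  exact h3

/-- A basic neighbourhood in the ambient product. -/
theorem exists_nbhd {O : Set PP} (hO : IsOpen O) {p : PP} (hp : p ∈ O) :
    ∃ (n : ℕ) (W : ℕ → Set C), (∀ l, IsOpen (W l) ∧ p.2.2 l ∈ W l) ∧
      ∀ q : PP, q.1 = p.1 → (∀ i < n, q.2.1 i = p.2.1 i) → (∀ l < n, q.2.2 l ∈ W l) → q ∈ O := by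
  obtain ⟨c, z, κ⟩ := p
  have h1 : O ∈ 𝓝 ((c, z, κ) : PP) := hO.mem_nhds hp
  rw [nhds_prod_eq, nhds_prod_eq, Filter.mem_prod_iff] at h1
  obtain ⟨A, hA, B, hB, hAB⟩ := h1
  rw [Filter.mem_prod_iff] at hB
  obtain ⟨V, hV, W, hW, hVW⟩ := hB
  obtain ⟨V', hV'V, hV'o, hV'⟩ := mem_nhds_iff.1 hV
  obtain ⟨W', hW'W, hW'o, hW'⟩ := mem_nhds_iff.1 hW
  obtain ⟨I, u, hu1, hu2⟩ := isOpen_pi_iff.1 hV'o z hV'
  obtain ⟨J, v, hv1, hv2⟩ := isOpen_pi_iff.1 hW'o κ hW'
  classical
  obtain ⟨n1, hn1⟩ := I.bddAbove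
  obtain ⟨n2, hn2⟩ := J.bddAbove
  refine ⟨max n1 n2 + 1, fun l => if l ∈ J then v l else univ, ?_, ?_⟩
  · intro l
    by_cases hl : l ∈ J
    · simp only [hl, if_true]
      exact hv1 l hl
    · simp only [hl, if_false]
      exact ⟨isOpen_univ, mem_univ _⟩
  · rintro ⟨c', z', κ'⟩ hc hz hκ
    simp only at hc hz hκ
    subst hc
    apply hAB
    refine mem_prod.2 ⟨mem_of_mem_nhds hA, hVW (mem_prod.2 ⟨hV'V (hu2 ?_), hW'W (hv2 ?_)⟩)⟩
    · intro i hi
      show z' i ∈ u i
      rw [hz i (by have := hn1 hi; omega)]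
      exact (hu1 i hi).2
    · intro l hl
      have h := hκ l (by have := hn2 hl; omega)
      rw [if_pos (by exact hl)] at h
      exact h

/-- Every open subset of the space contains a cylinder. -/
theorem exists_cyl (D : KD) {O : Set PP} (hO : IsOpen O) {p : PP} (hp : p ∈ O) (hpD : p ∈ SY D) :
    ∃ (a : C) (N : ℕ), p.1 ≤ N ∧ ∀ q ∈ SY D, q.1 = p.1 → (∀ i < N, q.2.1 i = a i) → q ∈ O := by
  obtain ⟨n, W, hW, hn⟩ := exists_nbhd hO hp
  rcases cases_z p.2.1 with hz | ⟨l0, hz⟩ | hz
  · -- infinitely many ones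
    obtain ⟨M, hM, hzM⟩ := hz (max n p.1)
    refine ⟨p.2.1, M + 1, by omega, ?_⟩
    intro q hq hqp hqa
    refine hn q hqp (fun i hi => hqa i (by omega)) ?_
    intro l hl
    have h1 : q.2.2 l = p.2.2 l := by
      by_cases h2 : p.2.1 l = false ∨ l < p.1
      · rw [(hpD l).1 h2, (hq l).1]
        rw [hqp, hqa l (by omega)]
        exact h2
      · push Not at h2
        have h3 : p.2.1 l = true := by simpa using h2.1
        obtain ⟨m, hmM, hm⟩ := exists_nxt (show l < M by omega) hzM
        have hm' : Nxt q.2.1 l m := hm.congr fun i hi _ => (hqa i (by omega)).symm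
        rw [((hpD l).2 h3 h2.2).2 m hm, ((hq l).2 _ _).2 m hm']
        · rw [hqa l (by omega)]
          exact h3
        · rw [hqp]
          exact h2.2
    rw [h1]
    exact (hW l).2
  · by_cases hc : p.1 ≤ l0
    · -- last one at `l0`
      obtain ⟨m, hm, hmW⟩ := D.dn l0 (W l0) (hW l0).1 (p.2.2 l0) (hW l0).2
        ((hpD l0).2 hz.1 hc).1 (max n (l0 + 1))
      classical
      refine ⟨Function.update p.2.1 m true, m + 1, by omega, ?_⟩
      intro q hq hqp hqa
      have hqa' : ∀ i, i < m → q.2.1 i = p.2.1 i := by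
        intro i hi
        rw [hqa i (by omega), Function.update_of_ne (by omega)]
      have hqm : q.2.1 m = true := by
        rw [hqa m (by omega), Function.update_self]
      refine hn q hqp (fun i hi => hqa' i (by omega)) ?_
      intro l hl
      by_cases h2 : p.2.1 l = false ∨ l < p.1
      · have h1 : q.2.2 l = p.2.2 l := by
          rw [(hpD l).1 h2, (hq l).1]
          rw [hqp, hqa' l (by omega)]
          exact h2
        rw [h1]
        exact (hW l).2
      · push Not at h2
        have h3 : p.2.1 l = true := by simpa using h2.1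
        have h4 : q.2.1 l = true := by
          rw [hqa' l (by omega)]
          exact h3
        have h5 : q.1 ≤ l := by
          rw [hqp]
          exact h2.2
        by_cases hl0 : l = l0
        · subst hl0
          have hm' : Nxt q.2.1 l m := by
            refine ⟨by omega, hqm, ?_⟩
            intro i hi hi'
            rw [hqa' i hi']
            exact hz.2 i hi
          rw [((hq l).2 h4 h5).2 m hm']
          exact hmW
        · have hll : l < l0 := by
            by_contra hcon
            have := hz.2 l (by omega)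
            rw [h3] at this
            exact absurd this (by decide)
          obtain ⟨m', hm'l, hm'⟩ := exists_nxt hll hz.1
          have hm'' : Nxt q.2.1 l m' := hm'.congr fun i hi _ => (hqa' i (by omega)).symm
          rw [((hq l).2 h4 h5).2 m' hm'', ← ((hpD l).2 h3 h2.2).2 m' hm']
          exact (hW l).2
    · refine ⟨p.2.1, max n p.1, by omega, ?_⟩
      intro q hq hqp hqa
      refine hn q hqp (fun i hi => hqa i (by omega)) ?_
      intro l hl
      have h2 : p.2.1 l = false ∨ l < p.1 := by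
        by_contra hcon
        push Not at hcon
        have := hz.2 l (by omega)
        exact hcon.1 this
      have h1 : q.2.2 l = p.2.2 l := by
        rw [(hpD l).1 h2, (hq l).1]
        rw [hqp, hqa l (by omega)]
        exact h2
      rw [h1]
      exact (hW l).2
  · refine ⟨p.2.1, max n p.1, by omega, ?_⟩
    intro q hq hqp hqa
    refine hn q hqp (fun i hi => hqa i (by omega)) ?_
    intro l hl
    have h2 : p.2.1 l = false ∨ l < p.1 := by
      left
      rw [hz]
      rfl
    have h1 : q.2.2 l = p.2.2 l := by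
      rw [(hpD l).1 h2, (hq l).1]
      rw [hqp, hqa l (by omega)]
      exact h2
    rw [h1]
    exact (hW l).2

/-- The function of the third coordinate. -/
noncomputable def kap (k : ℕ → ℕ → C) (c : ℕ) (z w : C) (l : ℕ) : C := by
  classical
  exact if z l = true ∧ c ≤ l then (if h : ∃ m, Nxt z l m then k l h.choose else w) else zro

theorem kap_zro {k : ℕ → ℕ → C} {c : ℕ} {z w : C} {l : ℕ} (h : z l = false ∨ l < c) :
    kap k c z w l = zro := by
  classical
  unfold kap
  rw [if_neg]
  rintro ⟨h1, h2⟩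
  rcases h with h | h
  · rw [h] at h1
    exact absurd h1 (by decide)
  · omega

theorem kap_nxt {k : ℕ → ℕ → C} {c : ℕ} {z w : C} {l m : ℕ} (h : z l = true) (hc : c ≤ l)
    (hm : Nxt z l m) : kap k c z w l = k l m := by
  classical
  unfold kap
  have h' : ∃ m, Nxt z l m := ⟨m, hm⟩
  rw [if_pos ⟨h, hc⟩, dif_pos h', Nxt.unique h'.choose_spec hm]

theorem kap_lst {k : ℕ → ℕ → C} {c : ℕ} {z w : C} {l : ℕ} (h : Lst z l) (hc : c ≤ l) :
    kap k c z w l = w := by
  classical
  unfold kap
  have h' : ¬ ∃ m, Nxt z l m := fun ⟨m, hm⟩ => h.not_nxt hm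
  rw [if_pos ⟨h.1, hc⟩, dif_neg h']

/-- The point with first coordinates `c, z` and free parameter `w`. -/
noncomputable def mkP (k : ℕ → ℕ → C) (c : ℕ) (z w : C) : PP := (c, z, kap k c z w)

theorem mk_mem (D : KD) {c : ℕ} {z w : C} (h : ∀ l, Lst z l → c ≤ l → w ∈ D.K l) :
    mkP D.k c z w ∈ SY D := by
  intro l
  refine ⟨fun h1 => kap_zro h1, fun h1 h2 => ?_⟩
  rcases nxt_or_lst h1 with ⟨m, hm⟩ | hl
  · have e : (mkP D.k c z w).2.2 l = D.k l m := kap_nxt h1 h2 hm
    refine ⟨e ▸ D.mem l m, fun m' hm' => ?_⟩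
    rw [e, Nxt.unique hm hm']
  · have e : (mkP D.k c z w).2.2 l = w := kap_lst hl h2
    refine ⟨by rw [e]; exact h l hl h2, fun m' hm' => absurd hm' hl.not_nxt⟩

/-- Every point of the space has this form. -/
theorem eq_mk (D : KD) {p : PP} (hp : p ∈ SY D) (w : C)
    (hw : ∀ l, Lst p.2.1 l → p.1 ≤ l → p.2.2 l = w) : p = mkP D.k p.1 p.2.1 w := by
  refine Prod.ext rfl (Prod.ext rfl ?_)
  funext l
  show p.2.2 l = kap D.k p.1 p.2.1 w l
  by_cases h : p.2.1 l = false ∨ l < p.1
  · rw [(hp l).1 h, kap_zro h]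
  · push Not at h
    have h3 : p.2.1 l = true := by simpa using h.1
    rcases nxt_or_lst h3 with ⟨m, hm⟩ | hl
    · rw [kap_nxt h3 h.2 hm, ((hp l).2 h3 h.2).2 m hm]
    · rw [kap_lst hl h.2]
      exact hw l hl h.2

/-- Two points over the same base point are equal if their free parameters agree. -/
theorem eq_of_base (D : KD) {p q : PP} (hp : p ∈ SY D) (hq : q ∈ SY D) (h1 : p.1 = q.1)
    (h2 : p.2.1 = q.2.1) (h : ∀ l, Lst p.2.1 l → p.1 ≤ l → p.2.2 l = q.2.2 l) : p = q := by
  refine Prod.ext h1 (Prod.ext h2 ?_)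
  funext l
  by_cases h4 : p.2.1 l = false ∨ l < p.1
  · rw [(hp l).1 h4, (hq l).1 (by rw [← h1, ← h2]; exact h4)]
  · push Not at h4
    have h3 : p.2.1 l = true := by simpa using h4.1
    rcases nxt_or_lst h3 with ⟨m, hm⟩ | hl
    · rw [((hp l).2 h3 h4.2).2 m hm, ((hq l).2 (h2 ▸ h3) (h1 ▸ h4.2)).2 m (h2 ▸ hm)]
    · exact h l hl h4.2

theorem cont_mkP (k : ℕ → ℕ → C) (c : ℕ) (z : C) : Continuous (mkP k c z) := by
  refine continuous_const.prodMk (continuous_const.prodMk ?_)
  refine continuous_pi fun l => ?_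
  classical
  by_cases h1 : z l = true ∧ c ≤ l
  · by_cases h2 : ∃ m, Nxt z l m
    · obtain ⟨m, hm⟩ := h2
      have : (fun w => kap k c z w l) = fun _ => k l m := by
        funext w
        exact kap_nxt h1.1 h1.2 hm
      rw [this]
      exact continuous_const
    · have hl : Lst z l := (nxt_or_lst h1.1).resolve_left h2
      have : (fun w => kap k c z w l) = fun w => w := by
        funext w
        exact kap_lst hl h1.2
      rw [this]
      exact continuous_id
  · have : (fun w => kap k c z w l) = fun _ => zro := by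
      funext w
      apply kap_zro
      by_contra hcon
      push Not at hcon
      exact h1 ⟨by simpa using hcon.1, hcon.2⟩
    rw [this]
    exact continuous_const

theorem meas_mkP (k : ℕ → ℕ → C) : Measurable (fun q : ℕ × C × C => mkP k q.1 q.2.1 q.2.2) := by
  refine measurable_fst.prodMk ((measurable_fst.comp measurable_snd).prodMk ?_)
  rw [measurable_pi_iff]
  intro l
  have hA : MeasurableSet {q : ℕ × C × C | q.2.1 l = true ∧ q.1 ≤ l} := by
    refine MeasurableSet.inter ?_ ?_
    · exact (measurableSet_singleton true).preimage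
        ((measurable_pi_apply l).comp (measurable_fst.comp measurable_snd))
    · exact (measurableSet_Iic (a := l)).preimage measurable_fst
  have hB : ∀ m, MeasurableSet {q : ℕ × C × C | Nxt q.2.1 l m} := by
    intro m
    have h1 : MeasurableSet {q : PP | Nxt q.2.1 l m} := (isClopen_nxt l m).1.measurableSet
    have h2 : Measurable (fun q : ℕ × C × C => ((q.1, q.2.1, fun _ => q.2.2) : PP)) := by
      refine measurable_fst.prodMk ((measurable_fst.comp measurable_snd).prodMk ?_)
      exact measurable_pi_lambda _ (fun _ => measurable_snd.comp measurable_snd)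
    exact h2 h1
  intro S hS
  classical
  have e : (fun q : ℕ × C × C => kap k q.1 q.2.1 q.2.2 l) ⁻¹' S =
      ({q : ℕ × C × C | q.2.1 l = true ∧ q.1 ≤ l} ∩ ((⋃ m, ({q : ℕ × C × C | Nxt q.2.1 l m} ∩
        {_q : ℕ × C × C | k l m ∈ S})) ∪ ((⋃ m, {q : ℕ × C × C | Nxt q.2.1 l m})ᶜ ∩
          {q : ℕ × C × C | q.2.2 ∈ S}))) ∪
      ({q : ℕ × C × C | q.2.1 l = true ∧ q.1 ≤ l}ᶜ ∩ {_q : ℕ × C × C | zro ∈ S}) := by
    ext q
    simp only [mem_preimage, mem_union, mem_inter_iff, mem_compl_iff, mem_iUnion, mem_ofPred_eq]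
    by_cases h1 : q.2.1 l = true ∧ q.1 ≤ l
    · by_cases h2 : ∃ m, Nxt q.2.1 l m
      · obtain ⟨m, hm⟩ := h2
        rw [kap_nxt h1.1 h1.2 hm]
        constructor
        · intro h
          exact Or.inl ⟨h1, Or.inl ⟨m, hm, h⟩⟩
        · rintro (⟨-, ⟨m', hm', h⟩ | ⟨h, -⟩⟩ | ⟨h, -⟩)
          · rwa [Nxt.unique hm hm']
          · exact absurd ⟨m, hm⟩ h
          · exact absurd h1 h
      · rw [kap_lst ((nxt_or_lst h1.1).resolve_left h2) h1.2]
        constructor
        · intro h
          exact Or.inl ⟨h1, Or.inr ⟨h2, h⟩⟩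
        · rintro (⟨-, ⟨m', hm', h⟩ | ⟨-, h⟩⟩ | ⟨h, -⟩)
          · exact absurd ⟨m', hm'⟩ h2
          · exact h
          · exact absurd h1 h
    · rw [kap_zro (by
        by_contra hcon
        push Not at hcon
        exact h1 ⟨by simpa using hcon.1, hcon.2⟩)]
      constructor
      · intro h
        exact Or.inr ⟨h1, h⟩
      · rintro (⟨h, -⟩ | ⟨-, h⟩)
        · exact absurd h h1
        · exact h
  show MeasurableSet ((fun q : ℕ × C × C => kap k q.1 q.2.1 q.2.2 l) ⁻¹' S)
  rw [e]
  refine MeasurableSet.union (hA.inter (MeasurableSet.union ?_ ?_)) (hA.compl.inter ?_)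
  · exact MeasurableSet.iUnion fun m => (hB m).inter (MeasurableSet.const _)
  · exact (MeasurableSet.iUnion fun m => hB m).compl.inter
      (hS.preimage (measurable_snd.comp measurable_snd))
  · exact MeasurableSet.const _

end Pool.Agent.Q215.MK
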