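import Mathlib
import Pool.Agent.Q215.MK.Space

set_option autoImplicit false

/-!
# The index set of the special points, and closures of graphs
-/

open Set TopologicalSpace Topology

namespace Pool.Agent.Q215.MK

theorem finite_lst (l : ℕ) : {z : C | Lst z l}.Finite := by
  refine Set.Finite.of_injOn (f := fun z : C => (fun i : Fin (l + 1) => z i))
    (t := (univ : Set (Fin (l + 1) → Bool))) (fun _ _ => mem_univ _) ?_ finite_univ
  intro z hz z' hz' h
  funext i
  by_cases hi : i ≤ l
  · exact congrFun h ⟨i, by omega⟩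
  · rw [hz.2 i (by omega), hz'.2 i (by omega)]

/-- the sequence with a one in position `l` only -/
def one (l : ℕ) : C := fun i => decide (i = l)

theorem lst_one (l : ℕ) : Lst (one l) l := by
  refine ⟨by simp [one], fun m hm => ?_⟩
  simp only [one, decide_eq_false_iff_not]
  omega

theorem exists_dec : ∃ (lv : ℕ → ℕ) (i0 : ℕ) (dec : ℕ → ℕ × C), Function.Injective dec ∧
    (∀ i, Lst (dec i).2 (lv i) ∧ (dec i).1 ≤ lv i) ∧
    (∀ c z l, Lst z l → c ≤ l → ∃ i, dec i = (c, z)) ∧
    (∀ l, {i | lv i = l}.Finite) ∧ (∀ l, ∃ i, lv i = l) ∧ (∀ i, lv i = 0 ↔ i = i0) := by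
  classical
  let T : Set (ℕ × C) := {p | ∃ l, Lst p.2 l ∧ p.1 ≤ l}
  have hfin : ∀ l, {p : ℕ × C | Lst p.2 l ∧ p.1 ≤ l}.Finite := by
    intro l
    refine ((Set.finite_Iic l).prod (finite_lst l)).subset ?_
    rintro ⟨c, z⟩ ⟨h1, h2⟩
    exact ⟨h2, h1⟩
  have hTc : T.Countable := by
    have : T = ⋃ l, {p : ℕ × C | Lst p.2 l ∧ p.1 ≤ l} := by
      ext p
      simp [T]
    rw [this]
    exact countable_iUnion fun l => (hfin l).countable
  have hTi : T.Infinite := by
    refine Set.infinite_of_injective_forall_mem (f := fun l : ℕ => ((0, one l) : ℕ × C)) ?_ ?_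
    · intro l l' h
      have h1 : one l = one l' := congrArg Prod.snd h
      exact (lst_one l).unique (h1 ▸ lst_one l')
    · intro l
      exact ⟨l, lst_one l, Nat.zero_le _⟩
  have : Countable T := hTc.to_subtype
  have : Infinite T := hTi.to_subtype
  obtain ⟨e⟩ := nonempty_equiv_of_countable (α := T) (β := ℕ)
  have h1 : ∀ i, ∃ l, Lst (e.symm i).1.2 l ∧ (e.symm i).1.1 ≤ l := fun i => (e.symm i).2
  choose lv hlv using h1
  have hlv2 : ∀ i l, Lst (e.symm i).1.2 l → lv i = l := fun i l h => (hlv i).1.unique h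
  have hinj : Function.Injective (fun i => (e.symm i).1) :=
    Subtype.val_injective.comp e.symm.injective
  have hsur : ∀ c z l, Lst z l → c ≤ l → ∃ i, (e.symm i).1 = (c, z) := by
    intro c z l h h'
    exact ⟨e ⟨(c, z), l, h, h'⟩, by rw [e.symm_apply_apply]⟩
  obtain ⟨i0, hi0⟩ := hsur 0 (one 0) 0 (lst_one 0) le_rfl
  refine ⟨lv, i0, fun i => (e.symm i).1, hinj, hlv, hsur, ?_, ?_, ?_⟩
  · intro l
    refine Set.Finite.of_injOn (f := fun i => (e.symm i).1) ?_ hinj.injOn (hfin l)
    intro i hi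
    have : lv i = l := hi
    subst this
    exact hlv i
  · intro l
    obtain ⟨i, hi⟩ := hsur 0 (one l) l (lst_one l) (Nat.zero_le _)
    exact ⟨i, hlv2 i l (by rw [hi]; exact lst_one l)⟩
  · intro i
    constructor
    · intro h
      apply hinj
      show (e.symm i).1 = (e.symm i0).1
      rw [hi0]
      have h2 := hlv i
      rw [h] at h2
      refine Prod.ext (Nat.le_zero.1 h2.2) ?_
      funext j
      rcases Nat.eq_zero_or_pos j with hj | hj
      · subst hj
        show (e.symm i).1.2 0 = one 0 0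
        rw [h2.1.1, (lst_one 0).1]
      · show (e.symm i).1.2 j = one 0 j
        rw [h2.1.2 j hj, (lst_one 0).2 j hj]
    · intro h
      subst h
      exact hlv2 _ _ (by rw [hi0]; exact lst_one 0)

/-- Closures of graphs: a limit of pairs of codes is a pair of codes or has no member with
infinitely many ones. -/
theorem graph_closure {X : Type} [TopologicalSpace X] (ι : X → C) (hι : IsEmbedding ι)
    (hcl : ∀ w ∈ closure (range ι), Inf w → w ∈ range ι) (T : Set X) (hT : IsClosed T)
    (u v b b' : X → X) (hu : Continuous u) (hv : Continuous v) (hb : Continuous b)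
    (hb' : Continuous b') (hbu : ∀ x ∈ T, b (u x) = x) (hbv : ∀ x ∈ T, b' (v x) = x)
    (w w' : C) (hw : (w, w') ∈ closure ((fun x => (ι (u x), ι (v x))) '' T))
    (hI : Inf w ∨ Inf w') : ∃ x ∈ T, ι (u x) = w ∧ ι (v x) = w' := by
  rw [mem_closure_iff_seq_limit] at hw
  obtain ⟨p, hp, hlim⟩ := hw
  choose x hxT hx using hp
  have h1 : Filter.Tendsto (fun n => ι (u (x n))) Filter.atTop (𝓝 w) := by
    have := (continuous_fst.tendsto _).comp hlim
    refine this.congr fun n => ?_
    show (p n).1 = _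
    rw [← hx n]
  have h2 : Filter.Tendsto (fun n => ι (v (x n))) Filter.atTop (𝓝 w') := by
    have := (continuous_snd.tendsto _).comp hlim
    refine this.congr fun n => ?_
    show (p n).2 = _
    rw [← hx n]
  have key : ∃ x0, Filter.Tendsto x Filter.atTop (𝓝 x0) := by
    rcases hI with hI | hI
    · obtain ⟨y, hy⟩ := hcl w (mem_closure_of_tendsto h1 (Filter.Eventually.of_forall fun n =>
        ⟨_, rfl⟩)) hI
      rw [← hy] at h1
      have h3 : Filter.Tendsto (fun n => u (x n)) Filter.atTop (𝓝 y) :=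
        (hι.tendsto_nhds_iff).2 h1
      refine ⟨b y, ((hb.tendsto y).comp h3).congr fun n => ?_⟩
      exact hbu _ (hxT n)
    · obtain ⟨y, hy⟩ := hcl w' (mem_closure_of_tendsto h2 (Filter.Eventually.of_forall fun n =>
        ⟨_, rfl⟩)) hI
      rw [← hy] at h2
      have h3 : Filter.Tendsto (fun n => v (x n)) Filter.atTop (𝓝 y) :=
        (hι.tendsto_nhds_iff).2 h2
      refine ⟨b' y, ((hb'.tendsto y).comp h3).congr fun n => ?_⟩
      exact hbv _ (hxT n)
  obtain ⟨x0, hx0⟩ := key
  refine ⟨x0, hT.mem_of_tendsto hx0 (Filter.Eventually.of_forall hxT), ?_, ?_⟩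
  · exact tendsto_nhds_unique ((hι.continuous.tendsto _).comp ((hu.tendsto _).comp hx0)) h1
  · exact tendsto_nhds_unique ((hι.continuous.tendsto _).comp ((hv.tendsto _).comp hx0)) h2

/-- In a subset of the Cantor space there is a sequence hitting all open sets infinitely often. -/
theorem exists_dn (K : Set C) (hK : K.Nonempty) : ∃ k : ℕ → C, (∀ m, k m ∈ K) ∧
    ∀ (O : Set C), IsOpen O → ∀ w ∈ O, w ∈ K → ∀ N, ∃ m, N ≤ m ∧ k m ∈ O := by
  have : Nonempty K := hK.to_subtype
  refine ⟨fun m => (denseSeq K m.unpair.2).1, fun m => (denseSeq K _).2, ?_⟩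
  intro O hO w hw hwK N
  have hO' : IsOpen ((Subtype.val : K → C) ⁻¹' O) := hO.preimage continuous_subtype_val
  obtain ⟨z, hz1, j, rfl⟩ := (denseRange_denseSeq K).inter_open_nonempty _ hO' ⟨⟨w, hwK⟩, hw⟩
  refine ⟨Nat.pair N j, Nat.left_le_pair N j, ?_⟩
  show (denseSeq K (Nat.pair N j).unpair.2).1 ∈ O
  rw [Nat.unpair_pair]
  exact hz1

end Pool.Agent.Q215.MK
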