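import Mathlib
import Pool.Agent.Q215.MK.Dec

set_option autoImplicit false

/-!
# The realization
-/

open Set TopologicalSpace Topology

namespace Pool.Agent.Q215.MK

/-- Equality modulo finite. -/
def E0 (a b : C) : Prop := ∃ N, ∀ n, N ≤ n → a n = b n

/-- The data on the part `B`. -/
structure Dat (B : Type) [TopologicalSpace B] where
  E : B → B → Prop
  hE : Equivalence E
  s : ℕ → B → B
  sc : ∀ n, Continuous (s n)
  sinv : ∀ n x, s n (s n x) = x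
  hsE : ∀ x y, E x y ↔ ∃ n, s n x = y
  lv : ℕ → ℕ
  dec : ℕ → ℕ × C
  dinj : Function.Injective dec
  dlst : ∀ i, Lst (dec i).2 (lv i)
  dle : ∀ i, (dec i).1 ≤ lv i
  dsur : ∀ c z l, Lst z l → c ≤ l → ∃ i, dec i = (c, z)
  σ : B → ℕ
  ρ : B → B
  β : ℕ → B → B
  σc : Continuous σ
  ρc : Continuous ρ
  βc : ∀ i, Continuous (β i)
  βσ : ∀ x, β (σ x) (ρ x) = x
  σβ : ∀ x i, lv i = lv (σ x) → σ (β i (ρ x)) = i
  ρβ : ∀ x i, lv i = lv (σ x) → ρ (β i (ρ x)) = ρ x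
  Eβ : ∀ x i, lv i = lv (σ x) → E x (β i (ρ x))
  lev : ∀ x l, ∃ y, E x y ∧ lv (σ y) = l
  ι : B → C
  ie : IsEmbedding ι
  iI : ∀ x, Inf (ι x)
  icl : ∀ w ∈ closure (range ι), Inf w → w ∈ range ι

variable {B : Type} [TopologicalSpace B] (D : Dat B)

namespace Dat

/-- the relation on the whole space -/
def R : (ℕ × C) ⊕ B → (ℕ × C) ⊕ B → Prop
  | Sum.inl p, Sum.inl q => E0 p.2 q.2
  | Sum.inr x, Sum.inr y => D.E x y
  | Sum.inl _, Sum.inr _ => False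
  | Sum.inr _, Sum.inl _ => False

def K (l : ℕ) : Set C := closure (insert zro ((fun x => D.ι (D.ρ x)) '' {x | D.lv (D.σ x) = l}))

theorem zro_mem (l : ℕ) : zro ∈ D.K l := subset_closure (mem_insert _ _)

theorem ι_mem (x : B) : D.ι (D.ρ x) ∈ D.K (D.lv (D.σ x)) :=
  subset_closure (mem_insert_of_mem _ ⟨x, rfl, rfl⟩)

theorem exists_k : ∃ k : ℕ → ℕ → C, (∀ l m, k l m ∈ D.K l) ∧
    ∀ l (O : Set C), IsOpen O → ∀ w ∈ O, w ∈ D.K l → ∀ N, ∃ m, N ≤ m ∧ k l m ∈ O := by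
  choose k h1 h2 using fun l => exists_dn (D.K l) ⟨_, D.zro_mem l⟩
  exact ⟨k, h1, h2⟩

noncomputable def kd : KD where
  K := D.K
  k := D.exists_k.choose
  cl := fun _ => isClosed_closure
  mem := D.exists_k.choose_spec.1
  zr := D.zro_mem
  dn := D.exists_k.choose_spec.2

abbrev Y : Type := YY D.kd

/-- the codes of level `l` -/
theorem exists_of_mem {l : ℕ} {w : C} (hw : w ∈ D.K l) (hI : Inf w) :
    ∃ x, D.lv (D.σ x) = l ∧ w = D.ι (D.ρ x) := by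
  have hne : w ≠ zro := fun h => not_inf_zro (h ▸ hI)
  have h1 : w ∈ closure ((fun x => D.ι (D.ρ x)) '' {x | D.lv (D.σ x) = l}) := by
    have h2 : w ∈ closure ({zro} ∪ ((fun x => D.ι (D.ρ x)) '' {x | D.lv (D.σ x) = l})) := by
      rw [← insert_eq]
      exact hw
    rw [closure_union, isClosed_singleton.closure_eq] at h2
    rcases h2 with h2 | h2
    · exact absurd h2 hne
    · exact h2
  obtain ⟨-, x1, hx1, -⟩ := (closure_nonempty_iff.1 ⟨w, h1⟩)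
  have hx1' : D.lv (D.σ x1) = l := hx1
  have h3 : (w, w) ∈ closure ((fun x => (D.ι (D.ρ x), D.ι (D.ρ x))) '' {x | D.σ x = D.σ x1}) := by
    refine map_mem_closure (f := fun v : C => (v, v)) (by fun_prop) h1 ?_
    rintro _ ⟨x, hx, rfl⟩
    have hx' : D.lv (D.σ x1) = D.lv (D.σ x) := hx1'.trans hx.symm
    exact ⟨D.β (D.σ x1) (D.ρ x), D.σβ x _ hx', by
      show (D.ι (D.ρ (D.β (D.σ x1) (D.ρ x))), D.ι (D.ρ (D.β (D.σ x1) (D.ρ x)))) = _
      rw [D.ρβ x _ hx']⟩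
  have hT : IsClosed {x | D.σ x = D.σ x1} := isClosed_eq D.σc continuous_const
  have hb : ∀ x ∈ {x | D.σ x = D.σ x1}, D.β (D.σ x1) (D.ρ x) = x := by
    intro x hx
    have h4 : D.σ x = D.σ x1 := hx
    rw [← h4]
    exact D.βσ x
  obtain ⟨x, hx, hx1, -⟩ := graph_closure D.ι D.ie D.icl _ hT D.ρ D.ρ _ _ D.ρc D.ρc
    (D.βc (D.σ x1)) (D.βc (D.σ x1)) hb hb w w h3 (Or.inl hI)
  have hx2 : D.σ x = D.σ x1 := hx
  exact ⟨x, by rw [hx2]; exact hx1', hx1.symm⟩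

/-- embedding of the part `B` -/
noncomputable def yB (x : B) : D.Y :=
  ⟨mkP D.kd.k (D.dec (D.σ x)).1 (D.dec (D.σ x)).2 (D.ι (D.ρ x)), mk_mem D.kd (by
    intro l hl _
    rw [← (D.dlst (D.σ x)).unique hl]
    exact D.ι_mem x)⟩

/-- embedding of the other part -/
noncomputable def yA (p : ℕ × C) : D.Y :=
  ⟨mkP D.kd.k p.1 p.2 zro, mk_mem D.kd (fun l _ _ => D.zro_mem l)⟩

theorem yA_fst (p : ℕ × C) : (D.yA p).1.1 = p.1 := rfl
theorem yA_snd (p : ℕ × C) : (D.yA p).1.2.1 = p.2 := rfl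
theorem yB_fst (x : B) : (D.yB x).1.1 = (D.dec (D.σ x)).1 := rfl
theorem yB_snd (x : B) : (D.yB x).1.2.1 = (D.dec (D.σ x)).2 := rfl

theorem yB_kap (x : B) : (D.yB x).1.2.2 (D.lv (D.σ x)) = D.ι (D.ρ x) :=
  kap_lst (D.dlst _) (D.dle _)

/-- points of type `A` -/
def TA (y : D.Y) : Prop := Inf y.1.2.1

/-- points of type `B` -/
def TB (y : D.Y) : Prop := ∃ l, Lst y.1.2.1 l ∧ y.1.1 ≤ l ∧ Inf (y.1.2.2 l)

/-- the other points -/
def TN (y : D.Y) : Prop := ¬ D.TA y ∧ ¬ D.TB y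

theorem TB.not_TA {D : Dat B} {y : D.Y} (h : D.TB y) : ¬ D.TA y := by
  obtain ⟨l, hl, -, -⟩ := h
  exact hl.not_inf

theorem TB_yB (x : B) : D.TB (D.yB x) :=
  ⟨D.lv (D.σ x), D.dlst _, D.dle _, by rw [D.yB_kap]; exact D.iI _⟩

theorem eq_yA {y : D.Y} (h : D.TA y) : y = D.yA (y.1.1, y.1.2.1) := by
  apply Subtype.ext
  refine eq_mk D.kd y.2 zro ?_
  intro l hl
  exact absurd h hl.not_inf

/-- a point of type `B` is determined by its index and code -/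
theorem eq_yB {y : D.Y} {i : ℕ} {x : B} (hi : D.dec i = (y.1.1, y.1.2.1))
    (hx : D.σ x = i) (hk : y.1.2.2 (D.lv i) = D.ι (D.ρ x)) : y = D.yB x := by
  apply Subtype.ext
  have h1 : (D.dec (D.σ x)) = (y.1.1, y.1.2.1) := by rw [hx, hi]
  have h2 : (D.yB x).1 = mkP D.kd.k y.1.1 y.1.2.1 (D.ι (D.ρ x)) := by
    show mkP D.kd.k (D.dec (D.σ x)).1 (D.dec (D.σ x)).2 (D.ι (D.ρ x)) = _
    rw [h1]
  rw [h2]
  refine eq_mk D.kd y.2 _ ?_
  intro l hl hc
  have h3 : D.lv i = l := by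
    have := D.dlst i
    rw [hi] at this
    exact this.unique hl
  rw [← h3]
  exact hk

theorem exists_index {y : D.Y} {l : ℕ} (hl : Lst y.1.2.1 l) (hc : y.1.1 ≤ l) :
    ∃ i, D.dec i = (y.1.1, y.1.2.1) ∧ D.lv i = l := by
  obtain ⟨i, hi⟩ := D.dsur _ _ l hl hc
  refine ⟨i, hi, ?_⟩
  have := D.dlst i
  rw [hi] at this
  exact this.unique hl

theorem exists_yB {y : D.Y} {l : ℕ} (hl : Lst y.1.2.1 l) (hc : y.1.1 ≤ l) {x : B}
    (hx : D.lv (D.σ x) = l) (hw : y.1.2.2 l = D.ι (D.ρ x)) :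
    ∃ x', D.E x x' ∧ D.ρ x' = D.ρ x ∧ y = D.yB x' := by
  obtain ⟨i, hi, hil⟩ := D.exists_index hl hc
  have h1 : D.lv i = D.lv (D.σ x) := by rw [hil, hx]
  refine ⟨D.β i (D.ρ x), D.Eβ x i h1, D.ρβ x i h1, ?_⟩
  refine D.eq_yB hi (D.σβ x i h1) ?_
  rw [hil, D.ρβ x i h1]
  exact hw

theorem TB_surj {y : D.Y} (h : D.TB y) : ∃ x, y = D.yB x := by
  obtain ⟨l, hl, hc, hw⟩ := h
  obtain ⟨x, hx, hx'⟩ := D.exists_of_mem ((y.2 l).2 hl.1 hc).1 hw
  obtain ⟨x', -, -, h⟩ := D.exists_yB hl hc hx hx'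
  exact ⟨x', h⟩

theorem yB_inj : Function.Injective D.yB := by
  intro x x' h
  have h1 : D.dec (D.σ x) = D.dec (D.σ x') := by
    refine Prod.ext ?_ ?_
    · rw [← D.yB_fst, ← D.yB_fst, h]
    · rw [← D.yB_snd, ← D.yB_snd, h]
  have h2 := D.dinj h1
  have h3 : D.ι (D.ρ x) = D.ι (D.ρ x') := by
    rw [← D.yB_kap, ← D.yB_kap, h2, h]
  have h4 := D.ie.injective h3
  rw [← D.βσ x, ← D.βσ x', h2, h4]

theorem yA_inj : Function.Injective D.yA := by
  intro p q h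
  refine Prod.ext ?_ ?_
  · rw [← D.yA_fst p, ← D.yA_fst q, h]
  · rw [← D.yA_snd p, ← D.yA_snd q, h]

theorem countable_not_inf : {z : C | ¬ Inf z}.Countable := by
  have h1 : {z : C | ¬ Inf z} ⊆ (⋃ l, {z : C | Lst z l}) ∪ {zro} := by
    intro z hz
    rcases cases_z z with h | ⟨l, h⟩ | h
    · exact absurd h hz
    · exact Or.inl (mem_iUnion.2 ⟨l, h⟩)
    · exact Or.inr h
  exact ((countable_iUnion fun l => (finite_lst l).countable).union
    (countable_singleton _)).mono h1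

theorem countable_TN : {y : D.Y | D.TN y}.Countable := by
  classical
  have h1 : ((univ : Set ℕ) ×ˢ ({z : C | ¬ Inf z} ×ˢ {z : C | ¬ Inf z})).Countable :=
    countable_univ.prod (countable_not_inf.prod countable_not_inf)
  have h2 : (Subtype.val '' {y : D.Y | D.TN y}) ⊆
      (fun q : ℕ × C × C => mkP D.kd.k q.1 q.2.1 q.2.2) ''
        ((univ : Set ℕ) ×ˢ ({z : C | ¬ Inf z} ×ˢ {z : C | ¬ Inf z})) := by
    rintro _ ⟨y, ⟨hA, hB⟩, rfl⟩
    by_cases h : ∃ l, Lst y.1.2.1 l ∧ y.1.1 ≤ l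
    · obtain ⟨l, hl, hc⟩ := h
      refine ⟨(y.1.1, y.1.2.1, y.1.2.2 l), ⟨mem_univ _, hA, fun hw => hB ⟨l, hl, hc, hw⟩⟩, ?_⟩
      exact (eq_mk D.kd y.2 _ (fun l' hl' _ => by rw [hl'.unique hl])).symm
    · refine ⟨(y.1.1, y.1.2.1, zro), ⟨mem_univ _, hA, not_inf_zro⟩, ?_⟩
      exact (eq_mk D.kd y.2 _ (fun l' hl' hc' => absurd ⟨l', hl', hc'⟩ h)).symm
  exact (MapsTo.countable_of_injOn (f := Subtype.val) (fun y hy => mem_image_of_mem _ hy)
    Subtype.val_injective.injOn ((h1.image _).mono h2))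

theorem TN_yA {c : ℕ} {z : C} (hz : ¬ Inf z) : D.TN (D.yA (c, z)) := by
  refine ⟨hz, ?_⟩
  rintro ⟨l, hl, hc, hw⟩
  have : (D.yA (c, z)).1.2.2 l = zro := kap_lst hl hc
  rw [this] at hw
  exact not_inf_zro hw

theorem infinite_TN : {y : D.Y | D.TN y}.Infinite := by
  refine Set.infinite_of_injective_forall_mem (f := fun c : ℕ => D.yA (c, zro)) ?_ ?_
  · intro c c' h
    exact congrArg Prod.fst (D.yA_inj h)
  · intro c
    exact D.TN_yA not_inf_zro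

/-- the rational points of the other part -/
def Af : Set ((ℕ × C) ⊕ B) := {x | ∃ p : ℕ × C, x = Sum.inl p ∧ ¬ Inf p.2}

omit [TopologicalSpace B] in
theorem countable_Af : (Af : Set ((ℕ × C) ⊕ B)).Countable := by
  have h1 : ((univ : Set ℕ) ×ˢ {z : C | ¬ Inf z}).Countable :=
    countable_univ.prod countable_not_inf
  refine (h1.image (Sum.inl : ℕ × C → (ℕ × C) ⊕ B)).mono ?_
  rintro _ ⟨p, rfl, hp⟩
  exact ⟨p, ⟨mem_univ _, hp⟩, rfl⟩

omit [TopologicalSpace B] in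
theorem infinite_Af : (Af : Set ((ℕ × C) ⊕ B)).Infinite := by
  refine Set.infinite_of_injective_forall_mem
    (f := fun c : ℕ => (Sum.inl (c, zro) : (ℕ × C) ⊕ B)) ?_ ?_
  · intro c c' h
    exact congrArg Prod.fst (Sum.inl_injective h)
  · intro c
    exact ⟨(c, zro), rfl, not_inf_zro⟩

theorem exists_e : ∃ e : (ℕ × C) ⊕ B → D.Y, BijOn e Af {y : D.Y | D.TN y} := by
  have h1 : Countable (Af : Set ((ℕ × C) ⊕ B)) := countable_Af.to_subtype
  have h2 : Infinite (Af : Set ((ℕ × C) ⊕ B)) := infinite_Af.to_subtype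
  have h3 : Countable {y : D.Y | D.TN y} := D.countable_TN.to_subtype
  have h4 : Infinite {y : D.Y | D.TN y} := D.infinite_TN.to_subtype
  obtain ⟨f⟩ := nonempty_equiv_of_countable (α := (Af : Set ((ℕ × C) ⊕ B)))
    (β := {y : D.Y | D.TN y})
  classical
  refine ⟨fun x => if h : x ∈ Af then (f ⟨x, h⟩).1 else D.yA (0, zro), ?_, ?_, ?_⟩
  · intro x hx
    simp only [dif_pos hx]
    exact (f ⟨x, hx⟩).2
  · intro x hx x' hx' h
    simp only [dif_pos hx, dif_pos hx'] at h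
    exact congrArg Subtype.val (f.injective (Subtype.ext h))
  · intro y hy
    refine ⟨(f.symm ⟨y, hy⟩).1, (f.symm ⟨y, hy⟩).2, ?_⟩
    simp only [dif_pos (f.symm ⟨y, hy⟩).2, Subtype.coe_eta, Equiv.apply_symm_apply]

noncomputable def e : (ℕ × C) ⊕ B → D.Y := D.exists_e.choose

theorem e_bij : BijOn D.e Af {y : D.Y | D.TN y} := D.exists_e.choose_spec

noncomputable def F2 : (ℕ × C) ⊕ B → D.Y := Sum.elim D.yA D.yB

open Classical in
noncomputable def F (x : (ℕ × C) ⊕ B) : D.Y := if x ∈ Af then D.e x else D.F2 x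

theorem F_Af {x : (ℕ × C) ⊕ B} (h : x ∈ Af) : D.F x = D.e x := if_pos h

theorem F_inl {p : ℕ × C} (h : Inf p.2) : D.F (Sum.inl p) = D.yA p := by
  refine (if_neg ?_).trans rfl
  rintro ⟨q, hq, hq'⟩
  rw [← Sum.inl_injective hq] at hq'
  exact hq' h

theorem F_inr (x : B) : D.F (Sum.inr x) = D.yB x := by
  refine (if_neg ?_).trans rfl
  rintro ⟨q, hq, -⟩
  exact Sum.inr_ne_inl hq

omit [TopologicalSpace B] in
theorem cases_x (x : (ℕ × C) ⊕ B) : x ∈ (Af : Set ((ℕ × C) ⊕ B)) ∨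
    (∃ p : ℕ × C, x = Sum.inl p ∧ Inf p.2) ∨ ∃ y, x = Sum.inr y := by
  rcases x with p | y
  · by_cases h : Inf p.2
    · exact Or.inr (Or.inl ⟨p, rfl, h⟩)
    · exact Or.inl ⟨p, rfl, h⟩
  · exact Or.inr (Or.inr ⟨y, rfl⟩)

theorem F_inj : Function.Injective D.F := by
  have hA : ∀ p : ℕ × C, Inf p.2 → D.TA (D.F (Sum.inl p)) := by
    intro p hp
    rw [D.F_inl hp]
    exact hp
  have hB : ∀ x, D.TB (D.F (Sum.inr x)) := by
    intro x
    rw [D.F_inr]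
    exact D.TB_yB x
  have hN : ∀ x ∈ (Af : Set ((ℕ × C) ⊕ B)), D.TN (D.F x) := by
    intro x hx
    rw [D.F_Af hx]
    exact D.e_bij.mapsTo hx
  intro x x' h
  rcases cases_x x with hx | ⟨p, rfl, hp⟩ | ⟨y, rfl⟩ <;>
    rcases cases_x x' with hx' | ⟨p', rfl, hp'⟩ | ⟨y', rfl⟩
  · rw [D.F_Af hx, D.F_Af hx'] at h
    exact D.e_bij.injOn hx hx' h
  · exact absurd (h ▸ hA p' hp') (hN x hx).1
  · exact absurd (h ▸ hB y') (hN x hx).2
  · exact absurd (h ▸ hA p hp) (hN x' hx').1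
  · rw [D.F_inl hp, D.F_inl hp'] at h
    rw [D.yA_inj h]
  · exact absurd (h ▸ hA p hp) (hB y').not_TA
  · exact absurd (h ▸ hB y) (hN x' hx').2
  · exact absurd (h ▸ hA p' hp') (hB y).not_TA
  · rw [D.F_inr, D.F_inr] at h
    rw [D.yB_inj h]

theorem F_surj : Function.Surjective D.F := by
  intro y
  by_cases hA : D.TA y
  · exact ⟨Sum.inl (y.1.1, y.1.2.1), by
      rw [D.F_inl (p := (y.1.1, y.1.2.1)) hA]; exact (D.eq_yA hA).symm⟩
  · by_cases hB : D.TB y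
    · obtain ⟨x, hx⟩ := D.TB_surj hB
      exact ⟨Sum.inr x, by rw [D.F_inr, hx]⟩
    · obtain ⟨x, hx, hx'⟩ := D.e_bij.surjOn (show y ∈ {y : D.Y | D.TN y} from ⟨hA, hB⟩)
      exact ⟨x, by rw [D.F_Af hx, hx']⟩

/-- the inverse -/
noncomputable def Feq : (ℕ × C) ⊕ B ≃ D.Y := Equiv.ofBijective D.F ⟨D.F_inj, D.F_surj⟩

noncomputable def G (y : D.Y) : (ℕ × C) ⊕ B := D.Feq.symm y

theorem G_F (x : (ℕ × C) ⊕ B) : D.G (D.F x) = x := D.Feq.symm_apply_apply x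
theorem F_G (y : D.Y) : D.F (D.G y) = y := D.Feq.apply_symm_apply y

theorem G_yA {p : ℕ × C} (h : Inf p.2) : D.G (D.yA p) = Sum.inl p := by
  rw [← D.F_inl h, D.G_F]

theorem G_yB (x : B) : D.G (D.yB x) = Sum.inr x := by
  rw [← D.F_inr, D.G_F]

theorem G_TN {y : D.Y} (h : D.TN y) : ∃ p : ℕ × C, D.G y = Sum.inl p ∧ ¬ Inf p.2 := by
  obtain ⟨x, hx, hx'⟩ := D.e_bij.surjOn (show y ∈ {y : D.Y | D.TN y} from h)
  obtain ⟨p, rfl, hp⟩ := hx
  refine ⟨p, ?_, hp⟩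
  rw [← hx', ← D.F_Af ⟨p, rfl, hp⟩, D.G_F]

def RY (y y' : D.Y) : Prop := D.R (D.G y) (D.G y')

theorem E0_of_not_inf {z z' : C} (h : ¬ Inf z) (h' : ¬ Inf z') : E0 z z' := by
  unfold Inf at h h'
  push Not at h h'
  obtain ⟨n, hn⟩ := h
  obtain ⟨n', hn'⟩ := h'
  refine ⟨max n n', fun m hm => ?_⟩
  have h1 := hn m (by omega)
  have h2 := hn' m (by omega)
  rw [Bool.eq_false_of_not_eq_true h1, Bool.eq_false_of_not_eq_true h2]

theorem E0_inf {z z' : C} (h : E0 z z') (hz : Inf z) : Inf z' := by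
  obtain ⟨N, hN⟩ := h
  intro n
  obtain ⟨m, hm, hm'⟩ := hz (max n N)
  exact ⟨m, by omega, by rw [← hN m (by omega)]; exact hm'⟩

theorem RY_TN {y y' : D.Y} (h : D.TN y) (h' : D.TN y') : D.RY y y' := by
  obtain ⟨p, hp, hpI⟩ := D.G_TN h
  obtain ⟨q, hq, hqI⟩ := D.G_TN h'
  unfold RY
  rw [hp, hq]
  exact E0_of_not_inf hpI hqI

theorem RY_TA {y y' : D.Y} (h : D.TA y) (h' : D.TA y') :
    D.RY y y' ↔ E0 y.1.2.1 y'.1.2.1 := by
  unfold RY
  rw [D.eq_yA h, D.eq_yA h', D.G_yA (p := (y.1.1, y.1.2.1)) h,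
    D.G_yA (p := (y'.1.1, y'.1.2.1)) h']
  rfl

theorem RY_yB (x x' : B) : D.RY (D.yB x) (D.yB x') ↔ D.E x x' := by
  unfold RY
  rw [D.G_yB, D.G_yB]
  rfl

/-! ### The compact sets for the part `A` -/

def GA (n : ℕ) : Set (PP × PP) :=
  {r | r.1.2.1 n = true ∧ r.2.2.1 n = true ∧
    ∀ i, n ≤ i → r.1.2.1 i = r.2.2.1 i ∧ r.1.2.2 i = r.2.2.2 i}

theorem isClosed_GA (n : ℕ) : IsClosed (GA n) := by
  have h1 : ∀ i, Continuous (fun r : PP × PP => r.1.2.1 i) := fun i => by fun_prop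
  have h2 : ∀ i, Continuous (fun r : PP × PP => r.2.2.1 i) := fun i => by fun_prop
  have h3 : ∀ i, Continuous (fun r : PP × PP => r.1.2.2 i) := fun i => by fun_prop
  have h4 : ∀ i, Continuous (fun r : PP × PP => r.2.2.2 i) := fun i => by fun_prop
  have e : GA n = {r | r.1.2.1 n = true} ∩ ({r | r.2.2.1 n = true} ∩ ⋂ i, ⋂ _ : n ≤ i,
      ({r | r.1.2.1 i = r.2.2.1 i} ∩ {r | r.1.2.2 i = r.2.2.2 i})) := by
    ext r
    simp only [GA, mem_ofPred_eq, mem_inter_iff, mem_iInter]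
  rw [e]
  refine (isClosed_eq (h1 n) continuous_const).inter ((isClosed_eq (h2 n) continuous_const).inter
    (isClosed_iInter fun i => isClosed_iInter fun _ => ?_))
  exact (isClosed_eq (h1 i) (h2 i)).inter (isClosed_eq (h3 i) (h4 i))

theorem RY_of_GA {y y' : D.Y} {n : ℕ} (h : (y.1, y'.1) ∈ GA n) (hy : y.1.1 ≤ n)
    (hy' : y'.1.1 ≤ n) : D.RY y y' := by
  obtain ⟨h1, h2, h3⟩ := h
  simp only at h1 h2 h3
  have hE : E0 y.1.2.1 y'.1.2.1 := ⟨n, fun i hi => (h3 i hi).1⟩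
  by_cases hA : D.TA y
  · exact (D.RY_TA hA (E0_inf hE hA)).2 hE
  · have hz : ∃ l, Lst y.1.2.1 l := by
      rcases cases_z y.1.2.1 with h | h | h
      · exact absurd h hA
      · exact h
      · rw [h] at h1
        exact absurd h1 (by simp [zro])
    obtain ⟨l, hl⟩ := hz
    have hnl : n ≤ l := by
      by_contra hcon
      have := hl.2 n (by omega)
      rw [h1] at this
      exact absurd this (by decide)
    have hl' : Lst y'.1.2.1 l := by
      refine ⟨?_, fun m hm => ?_⟩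
      · rw [← (h3 l hnl).1]
        exact hl.1
      · rw [← (h3 m (by omega)).1]
        exact hl.2 m hm
    have hA' : ¬ D.TA y' := hl'.not_inf
    by_cases hB : Inf (y.1.2.2 l)
    · obtain ⟨x, hx, hx'⟩ := D.exists_of_mem ((y.2 l).2 hl.1 (by omega)).1 hB
      obtain ⟨x1, hx1, -, hy1⟩ := D.exists_yB hl (by omega) hx hx'
      obtain ⟨x2, hx2, -, hy2⟩ := D.exists_yB (y := y') hl' (by omega) hx
        (by rw [← (h3 l hnl).2]; exact hx')
      rw [hy1, hy2, D.RY_yB]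
      exact D.hE.trans (D.hE.symm hx1) hx2
    · refine D.RY_TN ⟨hA, ?_⟩ ⟨hA', ?_⟩
      · rintro ⟨l', hl'', -, hI⟩
        rw [← hl.unique hl''] at hI
        exact hB hI
      · rintro ⟨l', hl'', -, hI⟩
        rw [← hl'.unique hl'', ← (h3 l hnl).2] at hI
        exact hB hI

theorem exists_GA {y y' : D.Y} (h : D.TA y) (h' : E0 y.1.2.1 y'.1.2.1) :
    ∃ n, (y.1, y'.1) ∈ GA n ∧ y.1.1 ≤ n ∧ y'.1.1 ≤ n := by
  obtain ⟨N, hN⟩ := h'
  obtain ⟨n, hn, hn'⟩ := h (max N (max y.1.1 y'.1.1))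
  refine ⟨n, ⟨hn', ?_, ?_⟩, by omega, by omega⟩
  · show y'.1.2.1 n = true
    rw [← hN n (by omega)]
    exact hn'
  · intro i hi
    refine ⟨hN i (by omega), ?_⟩
    show y.1.2.2 i = y'.1.2.2 i
    have hi2 : y.1.2.1 i = y'.1.2.1 i := hN i (by omega)
    by_cases hz : y.1.2.1 i = false
    · rw [(y.2 i).1 (Or.inl hz), (y'.2 i).1 (Or.inl (hi2 ▸ hz))]
    · have hz1 : y.1.2.1 i = true := by simpa using hz
      rcases nxt_or_lst hz1 with ⟨m, hm⟩ | hl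
      · have hm' : Nxt y'.1.2.1 i m := hm.congr fun j _ hj => hN j (by omega)
        rw [((y.2 i).2 hz1 (by omega)).2 m hm, ((y'.2 i).2 (hi2 ▸ hz1) (by omega)).2 m hm']
      · exact absurd h hl.not_inf

/-! ### The compact sets for the part `B` -/

def DC (i i' j : ℕ) : Set (C × C) :=
  closure ((fun x => (D.ι (D.ρ x), D.ι (D.ρ (D.s j x)))) '' {x | D.σ x = i ∧ D.σ (D.s j x) = i'})

def GB (i i' j : ℕ) : Set (PP × PP) :=
  {r | r.1.1 = (D.dec i).1 ∧ r.1.2.1 = (D.dec i).2 ∧ r.2.1 = (D.dec i').1 ∧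
    r.2.2.1 = (D.dec i').2 ∧ (r.1.2.2 (D.lv i), r.2.2.2 (D.lv i')) ∈ D.DC i i' j}

theorem isClosed_GB (i i' j : ℕ) : IsClosed (D.GB i i' j) := by
  have e : D.GB i i' j = {r | r.1.1 = (D.dec i).1} ∩ ({r | r.1.2.1 = (D.dec i).2} ∩
      ({r | r.2.1 = (D.dec i').1} ∩ ({r | r.2.2.1 = (D.dec i').2} ∩
      ((fun r : PP × PP => (r.1.2.2 (D.lv i), r.2.2.2 (D.lv i'))) ⁻¹' D.DC i i' j)))) := by
    ext r
    simp only [GB, mem_ofPred_eq, mem_inter_iff, mem_preimage]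
  rw [e]
  refine (isClosed_eq (by fun_prop) continuous_const).inter
    ((isClosed_eq (by fun_prop) continuous_const).inter
    ((isClosed_eq (by fun_prop) continuous_const).inter
    ((isClosed_eq (by fun_prop) continuous_const).inter ?_)))
  exact isClosed_closure.preimage (by fun_prop)

theorem RY_of_GB {y y' : D.Y} {i i' j : ℕ} (h : (y.1, y'.1) ∈ D.GB i i' j) : D.RY y y' := by
  obtain ⟨h1, h2, h3, h4, h5⟩ := h
  simp only at h1 h2 h3 h4 h5
  have hi : D.dec i = (y.1.1, y.1.2.1) := Prod.ext h1.symm h2.symm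
  have hi' : D.dec i' = (y'.1.1, y'.1.2.1) := Prod.ext h3.symm h4.symm
  by_cases hI : Inf (y.1.2.2 (D.lv i)) ∨ Inf (y'.1.2.2 (D.lv i'))
  · obtain ⟨x, hx, hx1, hx2⟩ := graph_closure D.ι D.ie D.icl {x | D.σ x = i ∧ D.σ (D.s j x) = i'}
      ((isClosed_eq D.σc continuous_const).inter
        (isClosed_eq (D.σc.comp (D.sc j)) continuous_const))
      D.ρ (fun x => D.ρ (D.s j x)) (D.β i) (fun x => D.s j (D.β i' x)) D.ρc
      (D.ρc.comp (D.sc j)) (D.βc i) ((D.sc j).comp (D.βc i'))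
      (by
        rintro x ⟨hx, -⟩
        rw [← hx]
        exact D.βσ x)
      (by
        rintro x ⟨-, hx⟩
        show D.s j (D.β i' (D.ρ (D.s j x))) = x
        rw [← hx, D.βσ, D.sinv])
      _ _ h5 hI
    have e1 : y = D.yB x := D.eq_yB hi hx.1 hx1.symm
    have e2 : y' = D.yB (D.s j x) := D.eq_yB hi' hx.2 hx2.symm
    rw [e1, e2, D.RY_yB]
    exact (D.hsE _ _).2 ⟨j, rfl⟩
  · push Not at hI
    have hl := D.dlst i
    rw [hi] at hl
    have hl' := D.dlst i'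
    rw [hi'] at hl'
    refine D.RY_TN ⟨hl.not_inf, ?_⟩ ⟨hl'.not_inf, ?_⟩
    · rintro ⟨l, hl1, -, hI1⟩
      rw [← hl.unique hl1] at hI1
      exact hI.1 hI1
    · rintro ⟨l, hl1, -, hI1⟩
      rw [← hl'.unique hl1] at hI1
      exact hI.2 hI1

theorem exists_GB {x x' : B} (h : D.E x x') :
    ∃ j, ((D.yB x).1, (D.yB x').1) ∈ D.GB (D.σ x) (D.σ x') j := by
  obtain ⟨j, rfl⟩ := (D.hsE _ _).1 h
  refine ⟨j, rfl, rfl, rfl, rfl, ?_⟩
  show ((D.yB x).1.2.2 (D.lv (D.σ x)), (D.yB (D.s j x)).1.2.2 (D.lv (D.σ (D.s j x)))) ∈ _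
  rw [D.yB_kap, D.yB_kap]
  exact subset_closure ⟨x, ⟨rfl, rfl⟩, rfl⟩

theorem ksigma : ∃ Kc : ℕ → Set (D.Y × D.Y), (∀ n, IsCompact (Kc n)) ∧
    {q : D.Y × D.Y | D.RY q.1 q.2} = ⋃ n, Kc n := by
  have hTN : Countable {y : D.Y | D.TN y} := D.countable_TN.to_subtype
  let J : Type := ℕ ⊕ (ℕ × ℕ × ℕ) ⊕ ({y : D.Y | D.TN y} × {y : D.Y | D.TN y})
  let Kj : J → Set (D.Y × D.Y) := fun j => match j with
    | Sum.inl n => {q | (q.1.1, q.2.1) ∈ GA n ∧ q.1.1.1 ≤ n ∧ q.2.1.1 ≤ n}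
    | Sum.inr (Sum.inl t) => {q | (q.1.1, q.2.1) ∈ D.GB t.1 t.2.1 t.2.2 ∧
        q.1.1.1 ≤ max (D.dec t.1).1 (D.dec t.2.1).1 ∧ q.2.1.1 ≤ max (D.dec t.1).1 (D.dec t.2.1).1}
    | Sum.inr (Sum.inr t) => {(t.1.1, t.2.1)}
  have hc : ∀ j, IsCompact (Kj j) := by
    rintro (n | t | t)
    · exact isCompact_of D.kd n _ (isClosed_GA n)
    · exact isCompact_of D.kd _ _ (D.isClosed_GB _ _ _)
    · exact isCompact_singleton
  have hJ : Countable J := by
    dsimp only [J]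
    infer_instance
  have hne : Nonempty J := ⟨Sum.inl 0⟩
  obtain ⟨g, hg⟩ := exists_surjective_nat J
  refine ⟨fun n => Kj (g n), fun n => hc _, ?_⟩
  ext ⟨y, y'⟩
  rw [mem_iUnion]
  constructor
  · intro h
    have h' : D.RY y y' := h
    suffices ∃ j, (y, y') ∈ Kj j by
      obtain ⟨j, hj⟩ := this
      obtain ⟨n, rfl⟩ := hg j
      exact ⟨n, hj⟩
    have hGy := D.F_G y
    have hGy' := D.F_G y'
    have hR : D.R (D.G y) (D.G y') := h'
    rcases hx : D.G y with p | x <;> rcases hx' : D.G y' with p' | x'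
    · rw [hx, hx'] at hR
      have hR' : E0 p.2 p'.2 := hR
      by_cases hp : Inf p.2
      · have hp' : Inf p'.2 := E0_inf hR' hp
        rw [hx, D.F_inl hp] at hGy
        rw [hx', D.F_inl hp'] at hGy'
        obtain ⟨n, hn⟩ := D.exists_GA (y := D.yA p) (y' := D.yA p') hp hR'
        rw [hGy, hGy'] at hn
        exact ⟨Sum.inl n, hn⟩
      · have hp' : ¬ Inf p'.2 := by
          intro h1
          obtain ⟨N, hN⟩ := hR'
          exact hp (E0_inf ⟨N, fun n hn => (hN n hn).symm⟩ h1)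
        have h1 : D.TN y := by
          rw [← hGy, hx, D.F_Af ⟨p, rfl, hp⟩]
          exact D.e_bij.mapsTo ⟨p, rfl, hp⟩
        have h2 : D.TN y' := by
          rw [← hGy', hx', D.F_Af ⟨p', rfl, hp'⟩]
          exact D.e_bij.mapsTo ⟨p', rfl, hp'⟩
        exact ⟨Sum.inr (Sum.inr (⟨y, h1⟩, ⟨y', h2⟩)), rfl⟩
    · rw [hx, hx'] at hR
      exact absurd hR id
    · rw [hx, hx'] at hR
      exact absurd hR id
    · rw [hx, hx'] at hR
      rw [hx, D.F_inr] at hGy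
      rw [hx', D.F_inr] at hGy'
      obtain ⟨j, hj⟩ := D.exists_GB (x := x) (x' := x') hR
      refine ⟨Sum.inr (Sum.inl (D.σ x, D.σ x', j)), ?_⟩
      rw [← hGy, ← hGy']
      exact ⟨hj, le_max_left _ _, le_max_right _ _⟩
  · rintro ⟨n, hn⟩
    show D.RY y y'
    rcases hj : g n with m | t | t
    · simp only [hj, Kj] at hn
      exact D.RY_of_GA hn.1 hn.2.1 hn.2.2
    · simp only [hj, Kj] at hn
      exact D.RY_of_GB hn.1
    · simp only [hj, Kj, mem_singleton_iff, Prod.mk.injEq] at hn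
      rw [hn.1, hn.2]
      exact D.RY_TN t.1.2 t.2.2

/-! ### Density -/

theorem dense_RY (y : D.Y) : Dense {z | D.RY y z} := by
  classical
  rw [dense_iff_inter_open]
  intro O hO hne
  obtain ⟨O', hO', rfl⟩ := isOpen_induced_iff.1 hO
  obtain ⟨p, hp⟩ := hne
  obtain ⟨a, N, haN, hcyl⟩ := exists_cyl D.kd hO' hp p.2
  rcases hx : D.G y with q | x
  · by_cases hq : Inf q.2
    · let z : C := fun i => if i < N then a i else q.2 i
      have hE : E0 q.2 z := ⟨N, fun n hn => by simp only [z, if_neg (show ¬ n < N by omega)]⟩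
      have hz : Inf z := E0_inf hE hq
      refine ⟨D.yA (p.1.1, z), ?_, ?_⟩
      · refine hcyl _ (D.yA (p.1.1, z)).2 rfl ?_
        intro i hi
        exact if_pos hi
      · show D.R (D.G y) (D.G (D.yA (p.1.1, z)))
        rw [hx, D.G_yA (p := (p.1.1, z)) hz]
        exact hE
    · let z : C := fun i => if i < N then a i else false
      have hz : ¬ Inf z := by
        intro h
        obtain ⟨m, hm, hm'⟩ := h N
        simp only [z, if_neg (show ¬ m < N by omega)] at hm'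
        exact absurd hm' (by decide)
      refine ⟨D.yA (p.1.1, z), ?_, ?_⟩
      · refine hcyl _ (D.yA (p.1.1, z)).2 rfl ?_
        intro i hi
        exact if_pos hi
      · refine D.RY_TN ?_ (D.TN_yA hz)
        rw [← D.F_G y, hx, D.F_Af ⟨q, rfl, hq⟩]
        exact D.e_bij.mapsTo ⟨q, rfl, hq⟩
  · let z : C := fun i => if i < N then a i else decide (i = N)
    have hz : Lst z N := by
      refine ⟨by simp [z], fun m hm => ?_⟩
      simp only [z, if_neg (show ¬ m < N by omega), decide_eq_false_iff_not]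
      omega
    obtain ⟨i, hi⟩ := D.dsur p.1.1 z N hz haN
    have hiN : D.lv i = N := by
      have := D.dlst i
      rw [hi] at this
      exact this.unique hz
    obtain ⟨x1, hx1, hx1'⟩ := D.lev x N
    have h1 : D.lv i = D.lv (D.σ x1) := by rw [hiN, hx1']
    refine ⟨D.yB (D.β i (D.ρ x1)), ?_, ?_⟩
    · refine hcyl _ (D.yB (D.β i (D.ρ x1))).2 ?_ ?_
      · rw [D.yB_fst, D.σβ x1 i h1, hi]
      · intro j hj
        rw [D.yB_snd, D.σβ x1 i h1, hi]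
        exact if_pos hj
    · show D.R (D.G y) (D.G (D.yB (D.β i (D.ρ x1))))
      rw [hx, D.G_yB]
      exact D.hE.trans hx1 (D.Eβ x1 i h1)

end Dat

end Pool.Agent.Q215.MK
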