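import Mathlib
import Pool.Agent.Q203.TCA.Main

set_option autoImplicit false

/-!
# The hyperfinite part of a nonsmooth countable Borel equivalence relation

The proofs of `glimm_effros` (`Pool.Agent.TH286.CR.GE`) and `exists_part`
(`Pool.Agent.Q203.TCA.Main`), with nonsmoothness in the form: there is no Borel transversal.
-/

open Set MeasureTheory Topology

namespace Pool.Agent.Q215.MK.Part

open Pool.Agent.TH286.CR Pool.Agent.TH286.CR.GEaux Q203.TCA

theorem glimm_effros {X : Type} [MeasurableSpace X] [StandardBorelSpace X] (s : ℕ → X → X)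
    (hs : ∀ n, Measurable (s n)) (hinv : ∀ n x, s n (s n x) = x) (E : X → X → Prop)
    (hE : Equivalence E) (hsE : ∀ x y, E x y ↔ ∃ n, s n x = y)
    (hns : ¬ ∃ T : Set X, MeasurableSet T ∧ ∀ x, ∃! y, y ∈ T ∧ E x y) :
    ∃ j : (ℕ → Bool) → X, Measurable j ∧ Function.Injective j ∧
      ∀ a b, E (j a) (j b) ↔ ∃ N, ∀ n, N ≤ n → a n = b n := by
  classical
  -- add the identity
  let s' : ℕ → X → X := fun n => Nat.casesOn n id s
  have hs'0 : ∀ x, s' 0 x = x := fun x => rfl
  have hs's : ∀ n x, s' (n + 1) x = s n x := fun n x => rfl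
  have hs' : ∀ n, Measurable (s' n) := by
    intro n
    cases n with
    | zero => exact measurable_id
    | succ n => exact hs n
  have hinv' : ∀ n x, s' n (s' n x) = x := by
    intro n x
    cases n with
    | zero => rfl
    | succ n => exact hinv n x
  have hsE' : ∀ x y, E x y ↔ ∃ n, s' n x = y := by
    intro x y
    constructor
    · intro h
      obtain ⟨n, hn⟩ := (hsE x y).1 h
      exact ⟨n + 1, hn⟩
    · rintro ⟨n, hn⟩
      cases n with
      | zero =>
        have : x = y := hn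
        rw [this]
        exact hE.refl y
      | succ n => exact (hsE x y).2 ⟨n, hn⟩
  let _ := upgradeStandardBorel X
  obtain ⟨t, ht, hpol, hbor, hcont, -⟩ := Pool.Agent.H139R3.MF.exists_topology (X := X)
    (H := Unit) s' hs' (fun _ => ()) measurable_const
  clear_value s'
  let _ : TopologicalSpace X := t
  have := hpol
  have := hbor
  let _ := TopologicalSpace.upgradeIsCompletelyMetrizable X
  by_cases hrec : ∃ x0 : X, ∀ O : Set X, IsOpen O → x0 ∈ O → ∃ k, s' k x0 ∈ O ∧ s' k x0 ≠ x0
  · obtain ⟨x0, hx0⟩ := hrec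
    exact exists_embedding hE s' hcont hs'0 hinv' hsE' hx0
  · exfalso
    apply hns
    push Not at hrec
    obtain ⟨g, hg, hgE, hgE'⟩ := exists_selector s' hs' E hE hsE' hrec
    refine ⟨{x | g x = x}, measurableSet_eq_fun hg measurable_id, fun x => ?_⟩
    refine ⟨g x, ⟨(hgE' _ _ (hgE x)).symm, hgE x⟩, ?_⟩
    rintro y ⟨hy, hxy⟩
    rw [hgE' x y hxy]
    exact hy.symm

/-- A nonsmooth countable Borel equivalence relation has an invariant Borel part isomorphic to
`I(ℕ) × E₀`. -/
theorem exists_part {X : Type} [MeasurableSpace X] [StandardBorelSpace X] (s : ℕ → X → X)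
    (hs : ∀ n, Measurable (s n)) (hinv : ∀ n x, s n (s n x) = x) (E : X → X → Prop)
    (hE : Equivalence E) (hsE : ∀ x y, E x y ↔ ∃ n, s n x = y)
    (hns : ¬ ∃ T : Set X, MeasurableSet T ∧ ∀ x, ∃! y, y ∈ T ∧ E x y) :
    ∃ A : Set X, MeasurableSet A ∧ (∀ x y, E x y → x ∈ A → y ∈ A) ∧
      ∃ ψ : A ≃ᵐ ℕ × C, ∀ x y : A, E x y ↔ E0 (ψ x).2 (ψ y).2 := by
  classical
  obtain ⟨j, hj, hjinj, hjE⟩ := glimm_effros s hs hinv E hE hsE hns
  have hPC : PolishSpace C := polish_C
  have hSC : StandardBorelSpace C := inferInstance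
  have hSNC : StandardBorelSpace (ℕ × C) := inferInstance
  let J : ℕ × C → X := fun p => j (itl p)
  have hJm : Measurable J := hj.comp itl_meas
  have hJi : Function.Injective J := hjinj.comp itl_inj
  have hJe : MeasurableEmbedding J := hJm.measurableEmbedding hJi
  have hJE : ∀ p q, E (J p) (J q) ↔ E0 p.2 q.2 := fun p q =>
    (hjE _ _).trans (itl_E0 p q)
  let A : Set X := {x | ∃ n, s n x ∈ range J}
  have hAm : MeasurableSet A := by
    have : A = ⋃ n, s n ⁻¹' (range J) := by
      ext x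
      simp [A]
    rw [this]
    exact MeasurableSet.iUnion fun n => hs n hJe.measurableSet_range
  have hA1 : ∀ x, x ∈ A ↔ ∃ p, E x (J p) := by
    intro x
    constructor
    · rintro ⟨n, p, hp⟩
      exact ⟨p, (hsE _ _).2 ⟨n, hp.symm⟩⟩
    · rintro ⟨p, hp⟩
      obtain ⟨n, hn⟩ := (hsE _ _).1 hp
      exact ⟨n, p, hn.symm⟩
  have hAinv : ∀ x y, E x y → x ∈ A → y ∈ A := by
    intro x y hxy hx
    rw [hA1] at hx ⊢
    obtain ⟨p, hp⟩ := hx
    exact ⟨p, hE.trans (hE.symm hxy) hp⟩
  have hSA : StandardBorelSpace A := hAm.standardBorel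
  -- the maps between `A` and `ℕ × C`
  let J0 : C → X := fun z => J (0, z)
  have hJ0m : Measurable J0 := hJm.comp (measurable_const.prodMk measurable_id)
  have hJ0e : MeasurableEmbedding J0 := hJ0m.measurableEmbedding (fun a b h => by
    have := hJi h
    exact congrArg Prod.snd this)
  obtain ⟨i0, hi0, hi0J⟩ := hJ0e.exists_measurable_extend (g := id) measurable_id
    (fun _ => ⟨fun _ => false⟩)
  have hi0J' : ∀ z, i0 (J0 z) = z := fun z => congrFun hi0J z
  have hex : ∀ x : A, ∃ m, s m (x : X) ∈ range J0 := by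
    intro x
    obtain ⟨p, hp⟩ := (hA1 x).1 x.2
    have : E (x : X) (J0 p.2) := hE.trans hp ((hJE _ _).2 (E0_refl _))
    obtain ⟨m, hm⟩ := (hsE _ _).1 this
    exact ⟨m, p.2, hm.symm⟩
  let mm : A → ℕ := fun x => Nat.find (hex x)
  have hmm : Measurable mm := measurable_find hex fun k =>
    (hs k).comp measurable_subtype_coe hJ0e.measurableSet_range
  have hmm1 : ∀ x : A, s (mm x) (x : X) ∈ range J0 := fun x => Nat.find_spec (hex x)
  have hsm : Measurable (fun x : A => s (mm x) (x : X)) := by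
    have h1 : Measurable (fun q : ℕ × A => s q.1 (q.2 : X)) :=
      measurable_from_prod_countable_right fun n => (hs n).comp measurable_subtype_coe
    exact h1.comp (hmm.prodMk measurable_id)
  let φ : A → ℕ × C := fun x => (mm x, i0 (s (mm x) x))
  have hφm : Measurable φ := hmm.prodMk (hi0.comp hsm)
  have hφ1 : ∀ x : A, J0 (φ x).2 = s (mm x) (x : X) := by
    intro x
    obtain ⟨z, hz⟩ := hmm1 x
    show J0 (i0 (s (mm x) x)) = _
    rw [← hz, hi0J']
  have hφi : Function.Injective φ := by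
    intro x y hxy
    have h1 : mm x = mm y := congrArg Prod.fst hxy
    have h2 : J0 (φ x).2 = J0 (φ y).2 := by rw [hxy]
    rw [hφ1, hφ1, h1] at h2
    have h3 := congrArg (s (mm y)) h2
    rw [hinv, hinv] at h3
    exact Subtype.ext h3
  have hφE : ∀ x : A, E (x : X) (J (φ x)) := by
    intro x
    have h1 : E (x : X) (J0 (φ x).2) := by
      rw [hφ1]
      exact (hsE _ _).2 ⟨mm x, rfl⟩
    exact hE.trans h1 ((hJE _ _).2 (E0_refl _))
  let JA : ℕ × C → A := fun p => ⟨J p, (hA1 _).2 ⟨p, hE.refl _⟩⟩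
  have hJAm : Measurable JA := hJm.subtype_mk
  have hJAi : Function.Injective JA := fun p q h => hJi (congrArg Subtype.val h)
  obtain ⟨ψ, hψ⟩ := sb (hφm.measurableEmbedding hφi) (hJAm.measurableEmbedding hJAi)
  have hψE : ∀ x : A, E (x : X) (J (ψ x)) := by
    intro x
    rcases hψ x with h | h
    · rw [h]
      exact hφE x
    · have h1 : J (ψ x) = (x : X) := congrArg Subtype.val h
      rw [h1]
      exact hE.refl _
  refine ⟨A, hAm, hAinv, ψ, fun x y => ?_⟩
  rw [← hJE]
  constructor
  · intro h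
    exact hE.trans (hE.symm (hψE x)) (hE.trans h (hψE y))
  · intro h
    exact hE.trans (hψE x) (hE.trans h (hE.symm (hψE y)))

end Pool.Agent.Q215.MK.Part
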