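import Mathlib
import Pool.Agent.Q215.MK.Core
import Pool.Agent.Q215.MK.Part
import Pool.Agent.Q178.MK.Blocks
import Pool.Agent.Q34.MK.Zero
import Pool.Agent.Q34.MK.Iota

set_option autoImplicit false

/-!
# Minimal `K_σ` realizations of nonsmooth aperiodic countable Borel equivalence relations
-/

open Set TopologicalSpace Topology

namespace Pool.Agent.Q215.MK

theorem exists_dat {B : Type} [MeasurableSpace B] [StandardBorelSpace B] (E : B → B → Prop)
    (hE : Equivalence E) (s : ℕ → B → B) (hs : ∀ n, Measurable (s n))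
    (hinv : ∀ n x, s n (s n x) = x) (hsE : ∀ x y, E x y ↔ ∃ n, s n x = y)
    (hinf : ∀ x, {y | E x y}.Infinite) :
    ∃ t : TopologicalSpace B, @PolishSpace B t ∧ @BorelSpace B t _ ∧
      ∃ D : @Dat B t, D.E = E := by
  obtain ⟨lv, i0, dec, dinj, dl, dsur, lfin, lsur, l0⟩ := exists_dec
  obtain ⟨σ, ρ, β, hσ, hρ, hβ, h1, h2, h3⟩ := Pool.Agent.Q178.MK.s_blocks B s hs hinv E hE hsE hinf
    lv i0 lfin lsur l0
  let g : ℕ → B → B := fun n => if n % 3 = 0 then s (n / 3) else
    if n % 3 = 1 then β (n / 3) else ρ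
  have hg : ∀ n, Measurable (g n) := by
    intro n
    simp only [g]
    split_ifs
    · exact hs _
    · exact hβ _
    · exact hρ
  obtain ⟨t, hp, hb, hc, hσc, b, hb1, hb2, hb3⟩ := Pool.Agent.Q34.MK.s_zero B g hg σ hσ
  have hsc : ∀ n, @Continuous B B t t (s n) := by
    intro n
    have h4 := hc (3 * n)
    have e1 : (3 * n) % 3 = 0 := by omega
    have e2 : (3 * n) / 3 = n := by omega
    simpa only [g, e1, e2, if_true] using h4
  have hβc : ∀ n, @Continuous B B t t (β n) := by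
    intro n
    have h4 := hc (3 * n + 1)
    have e1 : (3 * n + 1) % 3 = 1 := by omega
    have e2 : (3 * n + 1) / 3 = n := by omega
    have e3 : g (3 * n + 1) = β n := by
      simp only [g, e1, e2, if_true]
      rw [if_neg (by decide)]
    rw [e3] at h4
    exact h4
  have hρc : @Continuous B B t t ρ := by
    have h4 := hc 2
    have e3 : g 2 = ρ := by
      show (if 2 % 3 = 0 then s (2 / 3) else if 2 % 3 = 1 then β (2 / 3) else ρ) = ρ
      rw [if_neg (by decide), if_neg (by decide)]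
    rw [e3] at h4
    exact h4
  obtain ⟨ι, hι1, hι2, hι3⟩ := @Pool.Agent.Q34.MK.s_iota B t hp b hb1 hb2 hb3
  refine ⟨t, hp, hb, ?_⟩
  let _ : TopologicalSpace B := t
  exact ⟨{
    E := E
    hE := hE
    s := s
    sc := hsc
    sinv := hinv
    hsE := hsE
    lv := lv
    dec := dec
    dinj := dinj
    dlst := fun i => (dl i).1
    dle := fun i => (dl i).2
    dsur := dsur
    σ := σ
    ρ := ρ
    β := β
    σc := hσc
    ρc := hρc
    βc := hβc
    βσ := h1
    σβ := fun x i h => (h2 x i h).1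
    ρβ := fun x i h => (h2 x i h).2.1
    Eβ := fun x i h => (h2 x i h).2.2
    lev := h3
    ι := ι
    ie := hι1
    iI := hι2
    icl := hι3 }, rfl⟩

section

variable {B : Type} [TopologicalSpace B] [MeasurableSpace B] [BorelSpace B] (D : Dat B)

theorem meas_yA : Measurable D.yA := by
  refine Measurable.subtype_mk ?_
  exact (meas_mkP D.kd.k).comp (f := fun p : ℕ × C => (p.1, p.2, zro))
    (measurable_fst.prodMk (measurable_snd.prodMk measurable_const))

theorem meas_yB : Measurable D.yB := by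
  refine Measurable.subtype_mk ?_
  have hσ : Measurable D.σ := D.σc.measurable
  have hρ : Measurable D.ρ := D.ρc.measurable
  have hι : Measurable D.ι := D.ie.continuous.measurable
  have hd : Measurable (fun x => D.dec (D.σ x)) :=
    (measurable_from_top (f := D.dec)).comp hσ
  exact (meas_mkP D.kd.k).comp
    (f := fun x : B => ((D.dec (D.σ x)).1, (D.dec (D.σ x)).2, D.ι (D.ρ x)))
    ((measurable_fst.comp hd).prodMk ((measurable_snd.comp hd).prodMk (hι.comp hρ)))

theorem measurableSet_Af : MeasurableSet (Dat.Af : Set ((ℕ × C) ⊕ B)) := by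
  have h1 : MeasurableSet {p : ℕ × C | ¬ Inf p.2} := by
    have h2 : MeasurableSet {z : C | ¬ Inf z} := Dat.countable_not_inf.measurableSet
    exact h2.preimage measurable_snd
  have h3 : (Dat.Af : Set ((ℕ × C) ⊕ B)) = Sum.inl '' {p : ℕ × C | ¬ Inf p.2} := by
    ext x
    constructor
    · rintro ⟨p, rfl, hp⟩
      exact ⟨p, hp, rfl⟩
    · rintro ⟨p, hp, rfl⟩
      exact ⟨p, rfl, hp⟩
  rw [h3]
  exact h1.inl_image

theorem meas_F : Measurable D.F := by
  classical
  have h2 : Measurable D.F2 := (meas_yA D).sumElim (meas_yB D)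
  intro S hS
  have e : D.F ⁻¹' S = ((Dat.Af : Set ((ℕ × C) ⊕ B)) ∩ D.e ⁻¹' S) ∪
      ((Dat.Af : Set ((ℕ × C) ⊕ B))ᶜ ∩ D.F2 ⁻¹' S) := by
    ext x
    simp only [mem_preimage, mem_union, mem_inter_iff, mem_compl_iff, Dat.F]
    by_cases hx : x ∈ (Dat.Af : Set ((ℕ × C) ⊕ B))
    · simp [hx]
    · simp [hx]
  rw [e]
  refine MeasurableSet.union ?_ (measurableSet_Af.compl.inter (h2 hS))
  -- a countable set
  have h4 : ((Dat.Af : Set ((ℕ × C) ⊕ B)) ∩ D.e ⁻¹' S) =
      Sum.inl '' {p : ℕ × C | Sum.inl p ∈ (Dat.Af : Set ((ℕ × C) ⊕ B)) ∩ D.e ⁻¹' S} := by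
    ext x
    constructor
    · intro hx
      obtain ⟨p, rfl, hp⟩ := hx.1
      exact ⟨p, hx, rfl⟩
    · rintro ⟨p, hp, rfl⟩
      exact hp
  rw [h4]
  refine MeasurableSet.inl_image (Set.Countable.measurableSet ?_)
  have h5 : {p : ℕ × C | Sum.inl p ∈ (Dat.Af : Set ((ℕ × C) ⊕ B)) ∩ D.e ⁻¹' S}.Countable :=
    (Dat.countable_Af (B := B)).preimage_of_injOn (Sum.inl_injective.injOn) |>.mono
      (fun p hp => hp.1)
  exact h5

end

/-- The main theorem for spaces in `Type`. -/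
theorem final0 {X : Type} [MeasurableSpace X] [StandardBorelSpace X] (E : X → X → Prop)
    (hE : Equivalence E) (hm : MeasurableSet {p : X × X | E p.1 p.2})
    (hc : ∀ x, {y | E x y}.Countable) (ha : ∀ x, {y | E x y}.Infinite)
    (hns : ¬ ∃ T : Set X, MeasurableSet T ∧ ∀ x, ∃! y, y ∈ T ∧ E x y) :
    ∃ (Y : Type) (_ : TopologicalSpace Y) (_ : PolishSpace Y) (_ : MeasurableSpace Y)
      (_ : BorelSpace Y) (f : X ≃ᵐ Y), LocallyCompactSpace Y ∧
      (∃ K : ℕ → Set (Y × Y), (∀ n, IsCompact (K n)) ∧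
        {p : Y × Y | E (f.symm p.1) (f.symm p.2)} = ⋃ n, K n) ∧
      ∀ y, Dense {z | E (f.symm y) (f.symm z)} := by
  classical
  obtain ⟨s, hs, hinv, hsE⟩ := Pool.Agent.H139R3.FM.feldman_moore E hE hm hc
  obtain ⟨A, hAm, hAinv, ψ, hψ⟩ := Part.exists_part s hs hinv E hE hsE hns
  have hAinv' : ∀ x y, E x y → y ∈ A → x ∈ A := fun x y h => hAinv y x (hE.symm h)
  let B : Type := (Aᶜ : Set X)
  have hSB : StandardBorelSpace B := hAm.compl.standardBorel
  let s' : ℕ → B → B := fun n x => ⟨s n x.1, fun h => x.2 (hAinv' _ _ ((hsE _ _).2 ⟨n, rfl⟩) h)⟩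
  have hs' : ∀ n, Measurable (s' n) := fun n => ((hs n).comp measurable_subtype_coe).subtype_mk
  have hinv' : ∀ n x, s' n (s' n x) = x := fun n x => Subtype.ext (hinv n x.1)
  let E' : B → B → Prop := fun x y => E x.1 y.1
  have hE' : Equivalence E' := ⟨fun x => hE.refl _, fun h => hE.symm h, fun h h' => hE.trans h h'⟩
  have hsE' : ∀ x y, E' x y ↔ ∃ n, s' n x = y := by
    intro x y
    refine (hsE x.1 y.1).trans ?_
    constructor
    · rintro ⟨n, hn⟩
      exact ⟨n, Subtype.ext hn⟩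
    · rintro ⟨n, hn⟩
      exact ⟨n, congrArg Subtype.val hn⟩
  have hinf' : ∀ x, {y | E' x y}.Infinite := by
    intro x h
    apply ha x.1
    have h1 : {y | E x.1 y} ⊆ Subtype.val '' {y | E' x y} := by
      intro y hy
      exact ⟨⟨y, fun h => x.2 (hAinv' _ _ hy h)⟩, hy, rfl⟩
    exact (h.image _).subset h1
  obtain ⟨t, hp, hb, D, hD⟩ := exists_dat E' hE' s' hs' hinv' hsE' hinf'
  let _ : TopologicalSpace B := t
  have := hp
  have := hb
  -- the identification
  let Φ : X → (ℕ × C) ⊕ B := fun x => if h : x ∈ A then Sum.inl (ψ ⟨x, h⟩) else Sum.inr ⟨x, h⟩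
  have hΦ1 : ∀ x (h : x ∈ A), Φ x = Sum.inl (ψ ⟨x, h⟩) := fun x h => dif_pos h
  have hΦ2 : ∀ x (h : x ∉ A), Φ x = Sum.inr ⟨x, h⟩ := fun x h => dif_neg h
  have hΦm : Measurable Φ := by
    refine Measurable.dite (s := A) (f := fun x : A => (Sum.inl (ψ x) : (ℕ × C) ⊕ B))
      (g := fun x : (Aᶜ : Set X) => (Sum.inr x : (ℕ × C) ⊕ B)) ?_ ?_ hAm
    · exact measurable_inl.comp ψ.measurable
    · exact measurable_inr
  have hΦb : Function.Bijective Φ := by
    constructor
    · intro x y hxy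
      by_cases hx : x ∈ A <;> by_cases hy : y ∈ A
      · rw [hΦ1 x hx, hΦ1 y hy] at hxy
        exact congrArg Subtype.val (ψ.injective (Sum.inl_injective hxy))
      · rw [hΦ1 x hx, hΦ2 y hy] at hxy
        exact absurd hxy Sum.inl_ne_inr
      · rw [hΦ2 x hx, hΦ1 y hy] at hxy
        exact absurd hxy Sum.inr_ne_inl
      · rw [hΦ2 x hx, hΦ2 y hy] at hxy
        exact congrArg Subtype.val (Sum.inr_injective hxy)
    · rintro (p | x)
      · refine ⟨(ψ.symm p).1, ?_⟩
        rw [hΦ1 _ (ψ.symm p).2]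
        congr 1
        exact ψ.apply_symm_apply p
      · exact ⟨x.1, hΦ2 _ x.2⟩
  have hΦE : ∀ x y, E x y ↔ D.R (Φ x) (Φ y) := by
    intro x y
    by_cases hx : x ∈ A <;> by_cases hy : y ∈ A
    · rw [hΦ1 x hx, hΦ1 y hy]
      exact hψ ⟨x, hx⟩ ⟨y, hy⟩
    · rw [hΦ1 x hx, hΦ2 y hy]
      exact ⟨fun h => hy (hAinv _ _ h hx), fun h => absurd h id⟩
    · rw [hΦ2 x hx, hΦ1 y hy]
      exact ⟨fun h => hx (hAinv' _ _ h hy), fun h => absurd h id⟩
    · rw [hΦ2 x hx, hΦ2 y hy]
      show E x y ↔ D.E ⟨x, hx⟩ ⟨y, hy⟩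
      rw [hD]
  have hFm : Measurable (fun x => D.F (Φ x)) := (meas_F D).comp hΦm
  have hFb : Function.Bijective (fun x => D.F (Φ x)) :=
    (show Function.Bijective D.F from ⟨D.F_inj, D.F_surj⟩).comp hΦb
  obtain ⟨f, hf⟩ := Q203.TCA.bij_equiv (fun x => D.F (Φ x)) hFm hFb
  have hsymm : ∀ y, Φ (f.symm y) = D.G y := by
    intro y
    apply D.F_inj
    rw [D.F_G, ← hf, f.apply_symm_apply]
  have hR : ∀ y y', E (f.symm y) (f.symm y') ↔ D.RY y y' := by
    intro y y'
    rw [hΦE, hsymm, hsymm]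
    rfl
  have hcl := (isClosed_SY D.kd).isClosedEmbedding_subtypeVal
  have hpol : PolishSpace D.Y := hcl.polishSpace
  refine ⟨D.Y, inferInstance, hpol, inferInstance, inferInstance, f, hcl.locallyCompactSpace, ?_, ?_⟩
  · obtain ⟨K, hK1, hK2⟩ := D.ksigma
    refine ⟨K, hK1, ?_⟩
    rw [← hK2]
    ext p
    exact hR p.1 p.2
  · intro y
    have h1 : {z | E (f.symm y) (f.symm z)} = {z | D.RY y z} := by
      ext z
      exact hR y z
    rw [h1]
    exact D.dense_RY y

end Pool.Agent.Q215.MK
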